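import Mathlib.Analysis.SpecificLimits.Basic
import Mathlib.GroupTheory.FreeGroup.CyclicallyReduced
import Pool.Agent.MP_7ebdba_gt.ch.Sigma
import Pool.Agent.MP_7ebdba_gt.ch.Pd
import Pool.Agent.MP_7ebdba_gt.ss.Core

-- ======== part 0: formerly Pool.Agent.MP_7ebdba_gt.ch.Lk
section MrgPart0

/-! One end, and the side function of an element of infinite order links its two ends. -/

namespace Pool.Agent.MP_7ebdba_gt.ch

open Meander7 Filter

/-- no set that separates the two ends of the line of `g` has a finite boundary on one side. -/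
def Lk {P : Type} [Group P] (g : P) (s : P → ZMod 2) : Prop :=
  ∀ (H : Set P) (a : ZMod 2), (∀ y, ∀ᶠ n : ℕ in atTop, g ^ n * y ∈ H ∧ (g ^ n)⁻¹ * y ∉ H) →
    ¬ ∀ y, {x | s x = a ∧ ¬ (x ∈ H ↔ x * y ∈ H)}.Finite

namespace LK

/-- a section of the quotient map. -/
noncomputable def sec (x : S 2) : F 2 := Function.surjInv (mk_surjective 2) x

theorem mk_sec (x : S 2) : mk 2 (sec x) = x := Function.surjInv_eq _ _

/-- the total boundary of a finitely supported cochain vanishes. -/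
theorem total {c : F 2 → F 2 → ZMod 2} (hadd : ∀ h h' h'', c h h'' = c h h' + c h' h'')
    (hinv : ∀ m h h', mk 2 m = 1 → c (m * h) (m * h') = c h h')
    (hfin : ∀ y, {x | c (sec x) (sec x * y) ≠ 0}.Finite) :
    ∑ᶠ x, c (sec x) (sec x * zeta) = 0 := by
  have e : ∀ h y, c (sec (mk 2 h)) (sec (mk 2 h) * y) = c h (h * y) := fun h y => by
    have := hinv (sec (mk 2 h) * h⁻¹) h (h * y) (by simp [mk_sec])
    rwa [inv_mul_cancel_right, ← mul_assoc, inv_mul_cancel_right] at this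
  let T : F 2 →* Multiplicative (ZMod 2) := MonoidHom.mk'
    (fun y => Multiplicative.ofAdd (∑ᶠ x, c (sec x) (sec x * y))) fun y y' => by
      rw [← ofAdd_add, ← finsum_comp_equiv (Equiv.mulRight (mk 2 y))
        (f := fun x => c (sec x) (sec x * y')), ← finsum_add_distrib (hfin y)
        ((hfin y').preimage (Equiv.mulRight (mk 2 y)).injective.injOn)]
      refine congrArg _ (finsum_congr fun x => ?_)
      have := e (sec x * y) y'
      rw [map_mul, mk_sec] at this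
      rw [hadd _ (sec x * y), Equiv.coe_mulRight, this, mul_assoc]
  have : T zeta = 1 := by
    simp only [rel, map_list_prod, List.map_ofFn]
    refine List.prod_eq_one fun x hx => ?_
    obtain ⟨i, rfl⟩ := List.mem_ofFn.1 hx
    simp
  exact this

theorem two : (2 : ZMod 2) = 0 := rfl

/-- weighted crossing count. -/
noncomputable def C (u : F 2) (w : S 2 → ZMod 2) (h h' : F 2) : ZMod 2 :=
  ∑ᶠ m, w (mk 2 m) * X0 (m * 1) (m * u) h h'

theorem C_fin (u : F 2) (w : S 2 → ZMod 2) (h h' : F 2) :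
    Function.HasFiniteSupport fun m => w (mk 2 m) * X0 (m * 1) (m * u) h h' :=
  (X0_fin 1 u h h').subset fun _ hm e => hm (by simp only [e, mul_zero])

theorem C_add (u : F 2) (w : S 2 → ZMod 2) (h h' h'' : F 2) :
    C u w h h'' = C u w h h' + C u w h' h'' := by
  unfold C
  rw [← finsum_add_distrib (C_fin u _ h h') (C_fin u _ h' h'')]
  exact finsum_congr fun m => by rw [X0_add_right _ _ h h', mul_add]

theorem C_inv (u : F 2) (w : S 2 → ZMod 2) (m h h' : F 2) (hm : mk 2 m = 1) :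
    C u w (m * h) (m * h') = C u w h h' := by
  unfold C
  rw [← finsum_comp_equiv (Equiv.mulLeft m)]
  exact finsum_congr fun k => by
    rw [← X0_mul m (k * 1) (k * u) h h']
    simp [mul_assoc, hm]

theorem C_lin (u : F 2) (e : ZMod 2) (w w' : S 2 → ZMod 2) (h h' : F 2) :
    e * C u w h h' + C u w' h h' = C u (fun x => e * w x + w' x) h h' := by
  unfold C
  rw [mul_finsum' _ _ (C_fin u w h h'), ← finsum_add_distrib
    (by simpa only [mul_assoc] using C_fin u (fun x => e * w x) h h') (C_fin u w' h h')]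
  exact finsum_congr fun m => by ring

theorem C_zeta (u : F 2) (w : S 2 → ZMod 2) (h : F 2) :
    C u w h (h * zeta) = w (mk 2 h) + w (mk 2 (h * u⁻¹)) := by
  have k : ∀ c : F 2, ∀ m, m ≠ c → w (mk 2 m) * Meander7.ind (m = c) = 0 :=
    fun c m hm => by rw [ind_neg hm, mul_zero]
  have f : ∀ c : F 2, Function.HasFiniteSupport
      fun m => w (mk 2 m) * Meander7.ind (m = c) := fun c =>
    (Set.finite_singleton c).subset fun m hm => by_contra fun e => hm (k c m e)
  unfold C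
  simp only [X0_zeta_right, ← eq_mul_inv_iff_mul_eq, mul_add, mul_one]
  rw [finsum_add_distrib (f _) (f _), finsum_eq_single _ _ (k _), finsum_eq_single _ _ (k _),
    ind_pos rfl, ind_pos rfl, mul_one, mul_one]

theorem C_kap (u h h' : F 2) : kap (Ug u) 1 u h h' =
    C u (fun x => Meander7.ind (x ∈ Subgroup.zpowers (mk 2 u))) h h' := by
  refine (finsum_subtype_eq_finsum_cond (f := fun m => X0 (m * 1) (m * u) h h')
    (· ∈ Ug u)).trans (finsum_congr fun m => ?_)
  classical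
  rw [finsum_eq_if]
  by_cases hm : m ∈ Ug u
  · simp only [if_pos hm, ind_pos (Sig.mem_Ug.1 hm), one_mul]
  · simp only [if_neg hm, ind_neg (mt Sig.mem_Ug.2 hm), zero_mul]

theorem C_supp (u y : F 2) : ∃ R : Finset (S 2), ∀ w h, C u w h (h * y) ≠ 0 →
    ∃ r ∈ R, ∃ x, w x ≠ 0 ∧ mk 2 h = x * r := by
  classical
  refine ⟨(X0_fin 1 u 1 y).toFinset.image fun t => mk 2 t⁻¹, fun w h h1 => ?_⟩
  obtain ⟨m, hm⟩ : ∃ m, w (mk 2 m) * X0 (m * 1) (m * u) h (h * y) ≠ 0 := by
    by_contra c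
    exact h1 (finsum_eq_zero_of_forall_eq_zero fun m => not_not.1 fun e => c ⟨m, e⟩)
  refine ⟨_, Finset.mem_image.2 ⟨h⁻¹ * m, ?_, rfl⟩, mk 2 m, left_ne_zero_of_mul hm, by simp⟩
  rw [Set.Finite.mem_toFinset, Set.mem_ofPred_eq, ← X0_mul h]
  simpa only [mul_assoc, mul_inv_cancel_left, mul_one] using right_ne_zero_of_mul hm

/-- the side function of `u`. -/
noncomputable def sf (u : F 2) (x : S 2) : ZMod 2 := kap (Ug u) 1 u 1 (sec x)

theorem sf_mk (u h : F 2) : sf u (mk 2 h) = kap (Ug u) 1 u 1 h := Sig.kap_ker u (mk_sec _)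

theorem sf_add (u h h' : F 2) : sf u (mk 2 h') = sf u (mk 2 h) +
    C u (fun x => Meander7.ind (x ∈ Subgroup.zpowers (mk 2 u))) h h' := by
  rw [sf_mk, sf_mk, ← C_kap, ← kap_add_right]

theorem X0_le (a b h h' : F 2) : X0 a b h h' = Meander7.ind (P a 0 < P h 1) +
    Meander7.ind (P b 0 < P h 1) + (Meander7.ind (P a 0 < P h' 1) +
    Meander7.ind (P b 0 < P h' 1)) := by
  have k : ∀ x y w : W, w ≠ x → w ≠ y → Meander7.ind (Meander7.Btw x y w) =
      Meander7.ind (x < w) + Meander7.ind (y < w) := fun x y w h1 h2 => by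
    rw [← ind_xor]
    refine ind_congr ?_
    unfold Meander7.Btw
    grind
  rw [X0, ind_cross (P01 _ _) (P01 _ _) (P01 _ _) (P01 _ _), k _ _ _ (P01 _ _) (P01 _ _),
    k _ _ _ (P01 _ _) (P01 _ _)]

theorem le_flip (a h : F 2) :
    Meander7.ind (P a 0 < P h 1) = Meander7.ind (P h 0 < P a 1) + 1 + Meander7.ind (a = h) := by
  simp only [P_lt, lt1, zero_lt_one, and_true]
  revert a h
  change ∀ a h : X, Meander7.ind (a < h ∨ a = h) = Meander7.ind (h < a ∨ h = a) + 1 +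
    Meander7.ind (a = h)
  intro a h
  rcases lt_trichotomy a h with e | e | e
  · rw [ind_pos (Or.inl e), ind_neg (by grind), ind_neg e.ne]
    rfl
  · rw [ind_pos (Or.inr e), ind_pos (Or.inr e.symm), ind_pos e]
    rfl
  · rw [ind_neg (by grind), ind_pos (Or.inl e), ind_neg e.ne']
    rfl

theorem X0_flip (a b h h' : F 2) : X0 a b h h' = X0 h h' a b + (Meander7.ind (a = h) +
    Meander7.ind (b = h) + Meander7.ind (a = h') + Meander7.ind (b = h')) := by
  rw [X0_le, X0_le, le_flip a h, le_flip b h, le_flip a h', le_flip b h']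
  linear_combination 2 * two

theorem kap_self (u : F 2) : kap (Ug u) 1 u 1 u = 0 := by
  by_cases hu : u = 1
  · rw [hu, kap_self_left]
  classical
  set ψ : Ug u → ZMod 2 := fun m => X0 (m * 1) (m * u) 1 u +
    (Meander7.ind ((m : F 2) = u) + Meander7.ind ((m : F 2) = 1)) with hψ
  have f2 : Function.HasFiniteSupport fun m : Ug u => Meander7.ind ((m : F 2) = u) +
      Meander7.ind ((m : F 2) = 1) := (ind_fin (Ug u) u).add (ind_fin (Ug u) 1)
  have f : Function.HasFiniteSupport ψ := (kap_fin (Ug u) 1 u 1 u).add f2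
  have e : ∑ᶠ m, ψ m = kap (Ug u) 1 u 1 u := by
    rw [hψ, finsum_add_distrib (kap_fin (Ug u) 1 u 1 u) f2,
      finsum_add_distrib (ind_fin _ _) (ind_fin _ _), finsum_ind, finsum_ind,
      ind_pos (Sig.self_mem u), ind_pos (one_mem _), CharTwo.add_self_eq_zero, add_zero, kap]
  have i : ∀ m, ψ m⁻¹ = ψ m := fun m => by
    have h1 := X0_flip m (m * u) 1 u
    have h2 := X0_mul m (m : F 2)⁻¹ ((m : F 2)⁻¹ * u) 1 u
    simp only [mul_inv_cancel, mul_inv_cancel_left, mul_one] at h2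
    simp only [mul_eq_right, mul_eq_one_iff_eq_inv] at h1
    simp only [hψ, InvMemClass.coe_inv, mul_one, inv_eq_iff_eq_inv (a := (m : F 2)),
      inv_one, h1, ← h2]
    linear_combination (-(Meander7.ind ((m : F 2) = 1) + Meander7.ind ((m : F 2) = u))) * two
  rw [← e, finsum_eq_sum _ f]
  refine Finset.sum_involution (fun m _ => m⁻¹) (fun m _ => ?_) (fun m _ hm c => hm ?_)
    (fun m hm => ?_) fun m _ => inv_inv m
  · rw [i, CharTwo.add_self_eq_zero]
  · have h1 : (m : F 2) ^ 2 = 1 := by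
      rw [sq]
      exact mul_eq_one_iff_inv_eq.2 (congrArg Subtype.val c)
    have h2 : (m : F 2) = 1 := (pow_eq_one_iff_left two_ne_zero).1 h1
    simp only [hψ, h2, one_mul, Sig.X0_one hu, ind_neg (Ne.symm hu), ind_pos trivial]
    rfl
  · rw [Set.Finite.mem_toFinset, Function.mem_support] at hm ⊢
    rwa [i]

theorem sf_ai (u : F 2) : AI (mk 2 u) (sf u) := by
  refine ⟨fun x => ?_, fun y => ?_⟩
  · obtain ⟨h, rfl⟩ := mk_surjective 2 x
    have e := kap_mul_right (Ug u) (Sig.self_mem u) 1 u 1 h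
    rw [mul_one] at e
    rw [← map_mul, sf_mk, sf_mk, kap_add_right _ _ _ 1 u, kap_self, zero_add, e]
  · obtain ⟨k, rfl⟩ := mk_surjective 2 y
    obtain ⟨R, hR⟩ := C_supp u k
    refine ⟨R, fun x hx => ?_⟩
    obtain ⟨h, rfl⟩ := mk_surjective 2 x
    obtain ⟨r, hr, z, hz, e⟩ := hR _ h fun e => hx (by
      rw [← map_mul, sf_add u h, e, add_zero])
    obtain ⟨n, rfl⟩ : z ∈ Subgroup.zpowers (mk 2 u) := by_contra fun c => hz (ind_neg c)
    exact ⟨n, r, hr, e⟩

theorem sf_side (u : F 2) : Side (mk 2 u) (sf u) := ⟨sf_ai u, pd u _ (sf_mk u)⟩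

/-- the powers whose translates lie on the wrong side form a finite set. -/
theorem wrong {P : Type} [Group P] {g : P} {H : Set P}
    (hH : ∀ y, ∀ᶠ n : ℕ in atTop, g ^ n * y ∈ H ∧ (g ^ n)⁻¹ * y ∉ H) (y : P) :
    {n : ℤ | ¬ (g ^ n * y ∈ H ↔ 0 ≤ n)}.Finite := by
  obtain ⟨N, hN⟩ := eventually_atTop.1 (hH y)
  refine (Set.finite_Icc (-(N : ℤ)) N).subset fun n hn => ?_
  by_contra c
  refine hn ?_
  rcases Int.eq_nat_or_neg n with ⟨k, rfl | rfl⟩
  · have := (hN k (by simp at c; omega)).1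
    simp [this]
  · have h1 : N < k := by simp at c; omega
    have := (hN k h1.le).2
    simp [this]
    omega

theorem sf_lk (u : F 2) (hg : Function.Injective fun n : ℤ => mk 2 u ^ n) :
    Lk (mk 2 u) (sf u) := by
  intro H a hH hf
  set g := mk 2 u with hgu
  set wp : S 2 → ZMod 2 := fun x => Meander7.ind (∃ n : ℤ, 0 ≤ n ∧ g ^ n = x) with hwp
  set f : S 2 → ZMod 2 := fun x => (sf u x + a + 1) * Meander7.ind (x ∈ H) with hf'
  have t := total (c := fun h h' => f (mk 2 h) + f (mk 2 h') + C u wp h h')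
    (fun h h' h'' => by
      rw [C_add u wp h h']
      linear_combination (-f (mk 2 h')) * two)
    (fun m h h' hm => by simp only [map_mul, hm, one_mul, C_inv u wp m h h' hm]) fun y => by
      obtain ⟨R, hR⟩ := C_supp u y
      refine ((hf (mk 2 y)).union (R.finite_toSet.biUnion fun r _ =>
        (wrong hH (r * mk 2 y)).image fun n => g ^ n * r)).subset fun x hx => ?_
      by_contra c
      rw [Set.mem_union, not_or] at c
      refine hx ?_
      have e1 : (sf u x + a + 1) * (Meander7.ind (x ∈ H) + Meander7.ind (x * mk 2 y ∈ H)) = 0 := by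
        by_cases h1 : sf u x = a
        · rw [ind_congr (not_not.1 fun d => c.1 ⟨h1, d⟩), CharTwo.add_self_eq_zero, mul_zero]
        · rw [(by decide : ∀ p q : ZMod 2, p ≠ q → p + q + 1 = 0) _ _ h1, zero_mul]
      have e2 := C_lin u (Meander7.ind (x * mk 2 y ∈ H))
        (fun x => Meander7.ind (x ∈ Subgroup.zpowers g)) wp (sec x) (sec x * y)
      have e3 := sf_add u (sec x) (sec x * y)
      have e4 : C u (fun z => Meander7.ind (x * mk 2 y ∈ H) *
          Meander7.ind (z ∈ Subgroup.zpowers g) + wp z) (sec x) (sec x * y) = 0 := by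
        by_contra d
        obtain ⟨r, hr, z, hz, e⟩ := hR _ _ d
        rw [mk_sec] at e
        by_cases h1 : z ∈ Subgroup.zpowers g
        · obtain ⟨n, rfl⟩ := h1
          refine c.2 (Set.mem_biUnion hr ⟨n, fun q => hz ?_, e.symm⟩)
          rw [ind_pos (Subgroup.zpow_mem_zpowers g n), mul_one, e, mul_assoc, ind_congr q]
          refine (congrArg _ (ind_congr ?_)).trans (CharTwo.add_self_eq_zero _)
          exact ⟨fun ⟨k, h0, hk⟩ => hg hk ▸ h0, fun h0 => ⟨n, h0, rfl⟩⟩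
        · exact hz (by
            rw [ind_neg h1, mul_zero, zero_add]
            exact ind_neg fun ⟨n, _, hn⟩ => h1 ⟨n, hn⟩)
      simp only [map_mul, mk_sec, hf'] at e3 ⊢
      rw [e3]
      linear_combination e1 + e2 + e4
  rw [finsum_eq_single _ 1 fun x hx => ?_] at t
  · simp only [map_mul, mk_rel, mul_one, CharTwo.add_self_eq_zero, zero_add, C_zeta, mk_sec,
      map_inv, one_mul, hwp] at t
    rw [ind_pos ⟨0, le_rfl, zpow_zero _⟩, ind_neg fun ⟨n, h0, hn⟩ => by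
      have : n = -1 := hg (hn.trans (zpow_neg_one _).symm)
      omega] at t
    exact absurd t (by decide)
  · simp only [map_mul, mk_rel, mul_one, CharTwo.add_self_eq_zero, zero_add, C_zeta, mk_sec,
      map_inv, hwp]
    refine (congrArg _ (ind_congr ⟨fun ⟨n, h0, hn⟩ => ⟨n + 1, by omega, ?_⟩,
      fun ⟨n, h0, hn⟩ => ⟨n - 1, ?_, ?_⟩⟩)).trans (CharTwo.add_self_eq_zero _)
    · rw [zpow_add_one, hn, inv_mul_cancel_right]
    · have : n ≠ 0 := fun e => hx (by rw [← hn, e, zpow_zero])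
      omega
    · rw [zpow_sub_one, hn]

end LK

/-- the surface group has one end. -/
theorem one_end (f : S 2 → ZMod 2) (hf : ∀ y, {x | f (x * y) ≠ f x}.Finite) :
    ∃ c, {x | f x ≠ c}.Finite := by
  obtain ⟨c, e, R, hR⟩ := pd 1 (fun _ => 0) (fun h => (kap_self_left ..).symm) f
    ⟨⟨0, fun x => by simp⟩, fun y =>
      ⟨(hf y).toFinset, fun x hx => ⟨0, x, by simpa using hx, by simp⟩⟩⟩
  refine ⟨c, R.finite_toSet.subset fun x hx => ?_⟩
  obtain ⟨n, r, hr, e⟩ := hR x (by simpa using hx)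
  simpa [e] using hr

/-- an almost invariant set is finite or cofinite. -/
theorem one_end_set (V : Set (S 2)) (hV : ∀ y, {x | ¬ (x ∈ V ↔ x * y ∈ V)}.Finite) :
    V.Finite ∨ Vᶜ.Finite := by
  obtain ⟨c, hc⟩ := one_end (fun x => Meander7.ind (x ∈ V)) fun y =>
    (hV y).subset fun x hx e => hx (ind_congr e.symm)
  rcases (by decide : ∀ c : ZMod 2, c = 0 ∨ c = 1) c with rfl | rfl
  · exact Or.inl (hc.subset fun x hx e => absurd ((ind_pos hx).symm.trans e) (by decide))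
  · exact Or.inr (hc.subset fun x hx e => absurd ((ind_neg hx).symm.trans e) (by decide))

/-- every element of infinite order has a side function that links its ends. -/
theorem exists_lk (g : S 2) (hg : Function.Injective fun n : ℤ => g ^ n) :
    ∃ s, Side g s ∧ Lk g s := by
  obtain ⟨u, rfl⟩ := mk_surjective 2 g
  exact ⟨_, LK.sf_side u, LK.sf_lk u hg⟩

/-- a linking function is not constant modulo `g`. -/
theorem Lk.nontrivial {P : Type} [Group P] {g : P} {s : P → ZMod 2} (h : Lk g s)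
    (hg : Function.Injective fun n : ℤ => g ^ n) (c : ZMod 2) : ¬ FinMod g {x | s x ≠ c} := by
  rintro ⟨R, hR⟩
  have ex : ∀ x : P, ∃ n : ℤ, x = g ^ n *
      (QuotientGroup.mk (s := Subgroup.zpowers g) x⁻¹).out⁻¹ := fun x => by
    obtain ⟨⟨_, n, rfl⟩, hn⟩ := QuotientGroup.mk_out_eq_mul (Subgroup.zpowers g) x⁻¹
    exact ⟨n, by simp [hn]⟩
  choose ν hν using ex
  have sh : ∀ (n : ℤ) x, ν (g ^ n * x) = n + ν x := fun n x => by
    have e : QuotientGroup.mk (s := Subgroup.zpowers g) (g ^ n * x)⁻¹ = QuotientGroup.mk x⁻¹ :=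
      QuotientGroup.eq.2 (by simp)
    have h1 := hν (g ^ n * x)
    rw [e] at h1
    refine hg (mul_right_cancel (h1.symm.trans ?_))
    simp only [zpow_add, mul_assoc, ← hν x]
  refine h {x | 0 ≤ ν x} (c + 1) (fun y => ?_) fun y => ?_
  · filter_upwards [eventually_gt_atTop (ν y).natAbs] with n hn
    rw [← zpow_natCast, ← zpow_neg]
    simp only [sh]
    omega
  · refine (R.finite_toSet.biUnion fun r _ => (Set.finite_Icc (-(|ν r| + |ν (r * y)|))
      (|ν r| + |ν (r * y)|)).image fun n => g ^ n * r).subset fun x hx => ?_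
    obtain ⟨n, r, hr, rfl⟩ := hR x fun e =>
      (by decide : ∀ c : ZMod 2, c ≠ c + 1) c (e.symm.trans hx.1)
    have := hx.2
    simp only [Set.mem_ofPred_eq, mul_assoc, sh] at this
    refine Set.mem_biUnion hr ⟨n, ?_, rfl⟩
    have a1 := le_abs_self (ν r)
    have a2 := neg_abs_le (ν r)
    have a3 := le_abs_self (ν (r * y))
    have a4 := neg_abs_le (ν (r * y))
    constructor <;> omega

/-- every side function of an element of infinite order links its ends. -/
theorem Side.lk {g : S 2} {s : S 2 → ZMod 2} (hs : Side g s)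
    (hg : Function.Injective fun n : ℤ => g ^ n) : Lk g s := by
  obtain ⟨s0, h0, hl⟩ := exists_lk g hg
  obtain ⟨c, e, hF⟩ := hs.2 s0 ⟨⟨0, fun x => by rw [h0.1.1, add_zero]⟩, h0.1.2⟩
  rcases (by decide : ∀ c : ZMod 2, c = 0 ∨ c = 1) e with rfl | rfl
  · exact absurd (by simpa using hF) (hl.nontrivial hg c)
  intro H a hH hf
  refine hl H (c + a) hH fun y => ?_
  obtain ⟨R, hR⟩ := hF
  refine ((hf y).union (R.finite_toSet.biUnion fun r _ =>
    ((LK.wrong hH r).union (LK.wrong hH (r * y))).image fun n => g ^ n * r)).subset fun x hx => ?_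
  by_cases h1 : s0 x = c + 1 * s x
  · exact Or.inl ⟨add_left_cancel ((one_mul (s x) ▸ h1).symm.trans hx.1), hx.2⟩
  · obtain ⟨n, r, hr, rfl⟩ := hR x h1
    refine Or.inr (Set.mem_biUnion hr ⟨n, ?_, rfl⟩)
    by_contra d
    rw [Set.mem_union, not_or] at d
    exact hx.2 ((not_not.1 d.1).trans (mul_assoc (g ^ n) r y ▸ (not_not.1 d.2).symm))

end Pool.Agent.MP_7ebdba_gt.ch

end MrgPart0

-- ======== part 1: formerly Pool.Agent.MP_7ebdba_gt.ge.Ntv
section MrgPart1

-- ======== part 0: formerly Pool.Agent.MP_7ebdba_gt.ge.Half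
section MrgPart0

/-! Half of a periodic line is not a coboundary; half planes have one end; linking. -/

namespace Pool.Agent.MP_7ebdba_gt.ge

open ch Set

variable {P : Type} [Group P] {c g : P} {X N M : Set P} {s : P → ZMod 2}

/-- the line of `g` runs from the complement of `X` into `X` -/
def Ends (g : P) (X : Set P) : Prop := ∀ γ, {n : ℤ | ¬ (g ^ n * γ ∈ X ↔ 0 ≤ n)}.Finite

theorem hl0 (h1 : OneEnd P) (σ f : P → ZMod 2)
    (hp : ∀ x y, ∃ n : ℤ, f (c ^ n * x * y) + f (c ^ n * x) = σ (x * y) + σ x)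
    (hm : ∀ x y, ∃ n : ℤ, f (c ^ n * x * y) = f (c ^ n * x))
    (hf : ∀ y, {x | f (c * x * y) + f (c * x) ≠ f (x * y) + f x}.Finite) :
    ∃ k, FinMod c {x | σ x ≠ k} := by
  obtain ⟨k0, hZ⟩ := h1 (fun x => f (c * x) + f x) fun y => (hf y).subset fun x hx e => hx (by
    rw [← mul_assoc]
    exact (by decide : ∀ a b c d : ZMod 2, a + b = c + d → a + c = b + d) _ _ _ _ e)
  have key : ∀ x x', (∀ n : ℤ, f (c * (c ^ n * x)) + f (c ^ n * x) = k0) →
      (∀ n : ℤ, f (c * (c ^ n * x')) + f (c ^ n * x') = k0) →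
      ∀ n : ℤ, f (c ^ n * x') + f (c ^ n * x) = f x' + f x := by
    intro x x' a b n
    have st : ∀ n : ℤ, f (c ^ (n + 1) * x') + f (c ^ (n + 1) * x) = f (c ^ n * x') + f (c ^ n * x) :=
      fun n => by
        rw [add_comm n 1, zpow_one_add, mul_assoc, mul_assoc]
        exact (by decide : ∀ a b c d k : ZMod 2, a + b = k → c + d = k → c + a = d + b) _ _ _ _ _
          (a n) (b n)
    induction n using Int.induction_on with
    | zero => simp
    | succ n ih => rw [st, ih]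
    | pred n ih => rw [← st, sub_add_cancel, ih]
  by_cases hx : ∃ x0, ∀ n : ℤ, f (c * (c ^ n * x0)) + f (c ^ n * x0) = k0
  · obtain ⟨x0, h0⟩ := hx
    refine ⟨σ x0, hZ.toFinset, fun x hx => ?_⟩
    by_contra hn
    have hg : ∀ n : ℤ, f (c * (c ^ n * x)) + f (c ^ n * x) = k0 := fun n => by
      by_contra hne
      exact hn ⟨-n, c ^ n * x, hZ.mem_toFinset.2 hne, by group⟩
    obtain ⟨n, e⟩ := hp x0 (x0⁻¹ * x)
    obtain ⟨m, e'⟩ := hm x0 (x0⁻¹ * x)
    rw [mul_assoc, mul_inv_cancel_left] at e e'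
    have k1 := key x0 x h0 hg n
    have k2 := key x0 x h0 hg m
    rw [e', ← k1, e] at k2
    exact hx ((by decide : ∀ a b c : ZMod 2, a + a = b + c → b = c) _ _ _ k2)
  · refine ⟨0, hZ.toFinset, fun x _ => ?_⟩
    by_contra hn
    refine hx ⟨x, fun n => ?_⟩
    by_contra hne
    exact hn ⟨-n, c ^ n * x, hZ.mem_toFinset.2 hne, by group⟩

theorem AI0.zpow (h : AI0 g s) (n : ℤ) (x y : P) :
    s (g ^ n * x * y) + s (g ^ n * x) = s (x * y) + s x := by
  obtain ⟨w, hw⟩ := h.1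
  have st : ∀ n : ℤ, s (g ^ (n + 1) * x * y) + s (g ^ (n + 1) * x) =
      s (g ^ n * x * y) + s (g ^ n * x) := fun n => by
    rw [add_comm n 1, zpow_one_add, mul_assoc g, mul_assoc g, hw, hw]
    exact (by decide : ∀ a b w : ZMod 2, a + w + (b + w) = a + b) _ _ _
  induction n using Int.induction_on with
  | zero => simp
  | succ n ih => rw [st, ih]
  | pred n ih => rw [← st, sub_add_cancel, ih]

theorem finMod_fin {Y : Set P} (h : FinMod c Y) (H : ∀ r, {n : ℤ | c ^ n * r ∈ X ∩ Y}.Finite) :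
    (X ∩ Y).Finite := by
  obtain ⟨R, hR⟩ := h
  refine (R.finite_toSet.biUnion fun r _ => (H r).image fun n => c ^ n * r).subset ?_
  intro x hx
  obtain ⟨n, r, hr, rfl⟩ := hR x hx.2
  exact mem_biUnion hr ⟨n, hx, rfl⟩

/-- half of a periodic line is not a coboundary -/
theorem hl (h1 : OneEnd P) (hc : Function.Injective fun n : ℤ => c ^ n) {σ : P → ZMod 2}
    (hσ : AI0 c σ) (τ f : P → ZMod 2)
    (hf : ∀ y, {x | f (x * y) + f x ≠ τ x * (σ (x * y) + σ x)}.Finite)
    (hτ : ∀ x, {n : ℤ | τ (c ^ n * x) ≠ if 0 ≤ n then 1 else 0}.Finite) :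
    ∃ k, FinMod c {x | σ x ≠ k} := by
  refine hl0 h1 σ f (fun x y => ?_) (fun x y => ?_) fun y => ?_
  · obtain ⟨n, h0, hn⟩ := ex_ge ((hτ x).union (fin_pre hc (hf y) 1 x)) 0
    simp only [mem_union, mem_ofPred_eq, not_or, not_not, one_mul, if_pos h0] at hn
    exact ⟨n, by rw [hn.2, hn.1, one_mul, AI0.zpow hσ]⟩
  · obtain ⟨n, h0, hn⟩ := ex_le ((hτ x).union (fin_pre hc (hf y) 1 x)) (-1)
    simp only [mem_union, mem_ofPred_eq, not_or, not_not, one_mul,
      if_neg (show ¬ (0 ≤ n) by omega)] at hn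
    refine ⟨n, ?_⟩
    have := hn.2
    rw [hn.1, zero_mul] at this
    exact (by decide : ∀ a b : ZMod 2, a + b = 0 → a = b) _ _ this
  · have f3 : ({x | τ (c * x) ≠ τ x} ∩ {x | σ (x * y) ≠ σ x}).Finite := by
      refine finMod_fin (hσ.2 y) fun r => ?_
      refine (((hτ r).union ((hτ r).preimage (f := fun n => 1 + n)
        (add_right_injective 1).injOn)).union (finite_singleton (-1))).subset fun n hn => ?_
      by_contra hh
      simp only [mem_union, mem_preimage, mem_ofPred_eq, not_or, not_not, mem_singleton_iff] at hh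
      refine hn.1 ?_
      rw [← mul_assoc, ← zpow_one_add, hh.1.1, hh.1.2]
      exact if_congr (by omega) rfl rfl
    refine (((hf y).union ((hf y).preimage (f := fun x => c * x)
      (mul_right_injective c).injOn)).union f3).subset fun x hx => ?_
    by_contra hh
    simp only [mem_union, mem_preimage, mem_inter_iff, mem_ofPred_eq, not_or, not_not,
      not_and] at hh
    refine hx ?_
    have e := AI0.zpow hσ 1 x y
    rw [zpow_one] at e
    rw [hh.1.1, hh.1.2, e]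
    by_cases ht : τ (c * x) = τ x
    · rw [ht]
    · rw [hh.2 ht, CharTwo.add_self_eq_zero, mul_zero, mul_zero]

open Classical in
/-- indicator function -/
noncomputable def ch1 (X : Set P) (x : P) : ZMod 2 := if x ∈ X then 1 else 0

omit [Group P] in
theorem ch1_eq {x y : P} : ch1 X x = ch1 X y ↔ (x ∈ X ↔ y ∈ X) := by
  by_cases a : x ∈ X <;> by_cases b : y ∈ X <;> simp [ch1, a, b]

/-- LINK -/
theorem link (h1 : OneEnd P) (hg : Function.Injective fun n : ℤ => g ^ n) (hs : AI0 g s)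
    (hn : ∀ k, ¬ FinMod g {x | s x ≠ k}) (he : Ends g X)
    (hX : ∀ y, {x | ¬ (x * y ∈ X ↔ x ∈ X) ∧ x * y ∉ N}.Finite) (a : ZMod 2) :
    ¬ {y ∈ N | s y ≠ a}.Finite := by
  intro ha
  refine (hl h1 hg hs (ch1 X) (fun x => (s x + a) * ch1 X x) (fun y => ?_) fun x => ?_).elim hn
  · refine ((hX y).union (ha.preimage (f := fun x => x * y)
      (mul_left_injective y).injOn)).subset fun x hx => ?_
    by_contra hh
    simp only [mem_union, mem_preimage, mem_ofPred_eq, not_or, not_and, not_not] at hh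
    refine hx ?_
    by_cases e : x * y ∈ X ↔ x ∈ X
    · rw [ch1_eq.2 e]
      exact (by decide : ∀ a b c t : ZMod 2, (b + a) * t + (c + a) * t = t * (b + c)) _ _ _ _
    · rw [hh.2 (hh.1 e)]
      exact (by decide : ∀ a c t t' : ZMod 2, (a + a) * t' + (c + a) * t = t * (a + c)) _ _ _ _
  · refine (he x).subset fun n hn e => hn ?_
    by_cases h0 : 0 ≤ n
    · simp [ch1, h0, e.2 h0]
    · simp [ch1, h0, mt e.1 h0]

theorem ev_const {u : ℤ → ZMod 2} (h : {n | u (n + 1) ≠ u n}.Finite) :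
    ∃ a b, {n | u n ≠ if 0 ≤ n then a else b}.Finite := by
  obtain ⟨B, hB⟩ := h.bddAbove
  obtain ⟨A, hA⟩ := h.bddBelow
  have up : ∀ k : ℕ, u (B + 1 + k) = u (B + 1) := fun k => by
    induction k with
    | zero => simp
    | succ k ih =>
      rw [← ih, Nat.cast_succ, ← add_assoc]
      by_contra hne
      have := hB hne
      omega
  have dn : ∀ k : ℕ, u (A - k) = u A := fun k => by
    induction k with
    | zero => simp
    | succ k ih =>
      rw [← ih]
      by_contra hne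
      have : A - (k + 1 : ℕ) ∈ {n | u (n + 1) ≠ u n} := fun e => hne (by
        rw [← e]; congr 1; push_cast; ring)
      have := hA this
      omega
  refine ⟨u (B + 1), u A, (finite_Icc (-|A| - 1) (|B| + 1)).subset fun n hn => ?_⟩
  by_contra hh
  have a1 := le_abs_self B
  have a2 := neg_abs_le A
  have a3 := abs_nonneg A
  have a4 := abs_nonneg B
  rw [mem_Icc, not_and_or] at hh
  refine hn ?_
  rcases hh with hh | hh
  · rw [if_neg (by omega), ← dn (A - n).toNat]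
    congr 1
    omega
  · rw [if_pos (by omega), ← up (n - (B + 1)).toNat]
    congr 1
    omega

/-- a half plane with boundary line `c` -/
structure HP (c : P) (N : Set P) : Prop where
  inj : Function.Injective fun n : ℤ => c ^ n
  inv : ∀ x, c * x ∈ N ↔ x ∈ N
  ai : ∀ y, FinMod c {x | ¬ (x * y ∈ N ↔ x ∈ N)}
  big : ¬ FinMod c N
  big' : ¬ FinMod c Nᶜ

theorem finMod_of_finite (h : X.Finite) : FinMod c X :=
  ⟨h.toFinset, fun x hx => ⟨0, x, h.mem_toFinset.2 hx, by simp⟩⟩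

theorem HP.infinite (h : HP c N) : N.Infinite := fun f => h.big (finMod_of_finite f)

theorem HP.zpow (h : HP c N) (n : ℤ) (x : P) : c ^ n * x ∈ N ↔ x ∈ N := by
  induction n using Int.induction_on with
  | zero => simp
  | succ n ih => rw [add_comm, zpow_one_add, mul_assoc, h.inv, ih]
  | pred n ih => rw [← ih, ← h.inv, ← mul_assoc, ← zpow_one_add]; congr! 3; ring

/-- HALF -/
theorem half (h1 : OneEnd P) (h : HP c N) (hs : AI0 g s) (ht : Tails g 1 N) :
    ∃ a, {y ∈ N | s y ≠ a}.Finite := by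
  have f1 : ∀ y, (N ∩ {x | s (x * y) ≠ s x}).Finite := fun y => ht.inter (hs.2 y)
  have f1' : ∀ y, {x | x * y ∈ N ∧ s (x * y) ≠ s x}.Finite := fun y =>
    ((f1 y⁻¹).preimage (f := fun x => x * y) (mul_left_injective y).injOn).subset fun x hx =>
      ⟨hx.1, by simpa using hx.2.symm⟩
  obtain ⟨x0, h0⟩ := h.infinite.nonempty
  have f2 : ∀ y, {n : ℤ | s (c ^ n * x0 * y) ≠ s (c ^ n * x0)}.Finite := fun y =>
    (fin_pre h.inj (f1 y) 1 x0).subset fun n hn =>
      ⟨by simpa using (h.zpow n x0).2 h0, by simpa using hn⟩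
  obtain ⟨a, b, f3⟩ := ev_const (u := fun n => s (c ^ n * x0))
    ((f2 (x0⁻¹ * c * x0)).subset fun n hn => by
      have e : c ^ n * x0 * (x0⁻¹ * c * x0) = c ^ (n + 1) * x0 := by group
      rw [mem_ofPred_eq, e]
      exact hn)
  have f4 : ∀ z, {n : ℤ | s (c ^ n * z) ≠ if 0 ≤ n then a else b}.Finite := fun z =>
    (f3.union (f2 (x0⁻¹ * z))).subset fun n hn => by
      by_contra hh
      simp only [mem_union, mem_ofPred_eq, not_or, not_not, mul_assoc, mul_inv_cancel_left] at hh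
      exact hn (hh.2.trans hh.1)
  have alg : ∀ y x, ¬ (x * y ∈ N ∧ s (x * y) ≠ s x) → (s (x * y) + b) * ch1 N (x * y) +
      (s x + b) * ch1 N x = (s x + b) * (ch1 N (x * y) + ch1 N x) := fun y x hx => by
    by_cases e : x * y ∈ N
    · rw [not_not.1 (not_and.1 hx e), mul_add]
    · simp [ch1, e]
  rcases two b a with e | e
  · subst e
    obtain ⟨k, hk⟩ := h1 (fun x => (s x + a) * ch1 N x) fun y => by
      have f5 : ({x | s x ≠ a} ∩ {x | ¬ (x * y ∈ N ↔ x ∈ N)}).Finite :=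
        finMod_fin (h.ai y) fun r => (f4 r).subset fun n hn => by simpa using hn.1
      refine ((f1' y).union f5).subset fun x hx => ?_
      by_contra hh
      simp only [mem_union, mem_inter_iff, mem_ofPred_eq, not_or] at hh
      have := alg y x hh.1
      refine hx ((by decide : ∀ a b : ZMod 2, a + b = 0 → a = b) _ _ ?_)
      rw [this]
      by_cases e : s x = a
      · rw [e, CharTwo.add_self_eq_zero, zero_mul]
      · rw [ch1_eq.2 (not_not.1 (not_and.1 hh.2 e)), CharTwo.add_self_eq_zero, mul_zero]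
    have hk0 : k = 0 := by
      by_contra hne
      refine h.big' (finMod_of_finite (hk.subset fun x hx => ?_))
      have : x ∉ N := hx
      simpa [ch1, this] using Ne.symm hne
    refine ⟨a, hk.subset fun x hx => ?_⟩
    rw [mem_ofPred_eq, hk0, ch1, if_pos hx.1, mul_one]
    exact fun e => hx.2 ((by decide : ∀ a b : ZMod 2, a + b = 0 → a = b) _ _ e)
  · subst e
    obtain ⟨k, hk⟩ := hl h1 h.inj (σ := ch1 N)
      ⟨⟨0, fun x => by rw [add_zero, ch1_eq, h.inv]⟩, fun y => by simpa only [ne_eq, ch1_eq] using h.ai y⟩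
      (fun x => s x + b) (fun x => (s x + b) * ch1 N x)
      (fun y => (f1' y).subset fun x hx => by_contra fun hh => hx (alg y x hh))
      fun x => (f4 x).subset fun n hn e => hn (by
        rw [e]
        split_ifs
        · exact (by decide : ∀ b : ZMod 2, b + 1 + b = 1) _
        · exact CharTwo.add_self_eq_zero _)
    obtain ⟨R, hR⟩ := hk
    rcases two 0 k with e | e
    · exact absurd ⟨R, fun x hx => hR x (by simp [ch1, hx, e])⟩ h.big
    · refine absurd ⟨R, fun x hx => hR x ?_⟩ h.big'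
      have : x ∉ N := hx
      simp [ch1, this, e]

/-- two half planes on different sides of the line of `g` -/
theorem sep_of {c' : P} (h1 : OneEnd P) (hs : AI0 g s) (hn : ∀ k, ¬ FinMod g {x | s x ≠ k})
    (hN : HP c N) (hM : HP c' M) (ht : Tails g 1 (N ∪ M)) (he : Ends g X)
    (hX : ∀ y, {x | ¬ (x * y ∈ X ↔ x ∈ X) ∧ x * y ∉ N ∪ M}.Finite) : Sep g N M := by
  obtain ⟨a, ha⟩ := half h1 hN hs (ht.mono subset_union_left)
  obtain ⟨b, hb⟩ := half h1 hM hs (ht.mono subset_union_right)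
  refine ⟨hN.infinite, hM.infinite, ht, s, a, hs, ha, ?_⟩
  rcases two a b with e | e
  · subst e
    refine absurd ((ha.union hb).subset fun y hy => ?_)
      (link h1 (ht.inj (hN.infinite.nonempty.mono subset_union_left)) hs hn he hX b)
    exact hy.1.imp (fun h => ⟨h, hy.2⟩) fun h => ⟨h, hy.2⟩
  · exact e ▸ hb

end Pool.Agent.MP_7ebdba_gt.ge

end MrgPart0

-- ======== part 1: formerly Pool.Agent.MP_7ebdba_gt.ge.Geo
section MrgPart1

/-! The horizontal and the vertical half plane of the orbifold group. -/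

namespace Pool.Agent.MP_7ebdba_gt.ge

open ch Set Filter

section Fw
variable {P : Type} [Group P] {g : P} {X Y : Set P}

/-- all forward orbits of `g` end in `X` -/
def Fw (g : P) (X : Set P) : Prop := ∀ γ, ∀ᶠ n : ℕ in atTop, g ^ n * γ ∈ X

theorem Fw.mono (h : Fw g X) (hs : X ⊆ Y) : Fw g Y := fun γ => (h γ).mono fun _ hn => hs hn
theorem Fw.inter (h : Fw g X) (h' : Fw g Y) : Fw g (X ∩ Y) := fun γ => (h γ).and (h' γ)

theorem Fw.pow (h : Fw g X) {j : ℕ} (hj : 0 < j) : Fw (g ^ j) X := fun γ => by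
  simpa only [← pow_mul, id] using (tendsto_id.const_mul_atTop' hj).eventually (h γ)

theorem Fw.of_pow {k : ℕ} (hk : 0 < k) (h : Fw (g ^ k) X) : Fw g X := fun γ => by
  have h1 : ∀ᶠ q : ℕ in atTop, ∀ r ∈ Finset.range k, (g ^ k) ^ q * (g ^ r * γ) ∈ X :=
    (eventually_all_finset _).2 fun r _ => h _
  refine ((Nat.tendsto_div_const_atTop hk.ne').eventually h1).mono fun n hn => ?_
  have := hn (n % k) (Finset.mem_range.2 (Nat.mod_lt _ hk))
  rwa [← mul_assoc, ← pow_mul, ← pow_add, Nat.div_add_mod] at this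

theorem Fw.shift (h : Fw g X) : Fw g {x | g⁻¹ * x ∈ X} := fun γ =>
  (h (g⁻¹ * γ)).mono fun n hn => by
    have e : g⁻¹ * (g ^ n * γ) = g ^ n * (g⁻¹ * γ) := by group
    rwa [mem_ofPred_eq, e]

theorem Fw.conj (h : Fw g X) (w : P) : Fw (w⁻¹ * g * w) {x | w * x ∈ X} := fun γ =>
  (h (w * γ)).mono fun n hn => by
    have e : w * ((w⁻¹ * g * w) ^ n * γ) = g ^ n * (w * γ) := by
      have := conj_pow (a := w⁻¹) (b := g) (i := n)
      rw [inv_inv] at this
      rw [this]; group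
    rwa [mem_ofPred_eq, e]

theorem Fw.comap {P' : Type} [Group P'] (f : P' →* P) {g : P'} (h : Fw (f g) X) :
    Fw g (f ⁻¹' X) := fun γ => (h (f γ)).mono fun n hn => by simpa using hn

theorem fin_iff {p : ℤ → Prop} : {n | ¬ p n}.Finite ↔
    (∀ᶠ n : ℕ in atTop, p n) ∧ ∀ᶠ n : ℕ in atTop, p (-n) := by
  rw [← eventually_cofinite, Int.cofinite_eq, eventually_sup, and_comm, ← Nat.map_cast_int_atTop,
    ← map_neg_atTop, ← Nat.map_cast_int_atTop]
  rfl

theorem tails_iff : Tails g 1 X ↔ Fw g Xᶜ ∧ Fw g⁻¹ Xᶜ := by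
  rw [Tails, Fw, Fw, ← forall_and]
  refine forall_congr' fun γ => ?_
  have := fin_iff (p := fun n => g ^ n * γ ∉ X)
  simpa using this

theorem ends_of (h : Fw g X) (h' : Fw g⁻¹ Xᶜ) : Ends g X := fun γ =>
  fin_iff.2 ⟨(h γ).mono fun n hn => by simpa using hn,
    ((h' γ).and (eventually_gt_atTop 0)).mono fun n hn =>
      iff_of_false (by simpa using hn.1) (by omega)⟩

theorem fw_inj (h : Fw g X) (h' : Fw g⁻¹ Xᶜ) : Function.Injective fun n : ℤ => g ^ n := by
  rw [injective_zpow_iff_not_isOfFinOrder]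
  intro hf
  obtain ⟨k, hk, e⟩ := isOfFinOrder_iff_pow_eq_one.1 hf
  obtain ⟨n, a, b⟩ := (((h.pow hk) 1).and ((h'.pow hk) 1)).exists
  rw [inv_pow, e] at b
  rw [e] at a
  simp only [inv_one] at b
  exact b a

theorem fw_of_sub {Z : Set P} (h : ∀ γ, {n : ℕ | g ^ n * γ ∈ Z}.Subsingleton) : Fw g Zᶜ :=
  fun γ => by
    rw [← Nat.cofinite_eq_atTop]
    exact (h γ).finite.subset fun n hn => by simpa using hn

theorem fw_of_lt {Z : Set P} (h : ∀ γ (n m : ℕ), m < n → g ^ n * γ ∈ Z → g ^ m * γ ∈ Z → False) :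
    Fw g Zᶜ :=
  fw_of_sub fun γ n hn m hm => by
    rcases lt_trichotomy m n with l | l | l
    exacts [(h γ n m l hn hm).elim, l.symm, (h γ m n l hm hn).elim]

end Fw

/-! ### The half plane `A` -/

theorem R_inv : R⁻¹ = nu * ro := by simp [R]
theorem U_inv : U⁻¹ = ro * sg := by simp [U]
theorem ro_R : ro * R * ro = R⁻¹ := by simp [R]
theorem ro_U : ro * U * ro = U⁻¹ := by simp [U, mul_assoc, gen_sq]
theorem ro_zpow {x : G} (h : ro * x * ro = x⁻¹) (n : ℤ) : ro * x ^ n = x ^ (-n) * ro := by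
  have := conj_zpow (a := ro) (b := x) (i := n)
  rw [gen_inv, h, inv_zpow'] at this
  rw [this, mul_assoc, gen_sq, mul_one]
theorem ro_Rz (n : ℤ) : ro * R ^ n = R ^ (-n) * ro := ro_zpow ro_R n
theorem ro_Uz (n : ℤ) : ro * U ^ n = U ^ (-n) * ro := ro_zpow ro_U n

/-- the stabiliser of the horizontal strip -/
def D : Subgroup G := Subgroup.closure {ro, nu}
/-- the stabiliser of the horizontal tree -/
def E : Subgroup G := Subgroup.closure {sg, R}

theorem ro_D : ro ∈ D := Subgroup.subset_closure (Or.inl rfl)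
theorem nu_D : nu ∈ D := Subgroup.subset_closure (Or.inr rfl)
theorem R_D : R ∈ D := mul_mem ro_D nu_D
theorem sg_E : sg ∈ E := Subgroup.subset_closure (Or.inl rfl)
theorem R_E : R ∈ E := Subgroup.subset_closure (Or.inr rfl)

theorem mem_D {x : G} (h : x ∈ D) : ∃ n : ℤ, x = R ^ n ∨ x = R ^ n * ro := by
  induction h using Subgroup.closure_induction with
  | mem x hx =>
    rcases hx with rfl | rfl
    · exact ⟨0, Or.inr (by simp)⟩
    · exact ⟨-1, Or.inr (by simp [R_inv, mul_assoc, gen_sq])⟩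
  | one => exact ⟨0, Or.inl (by simp)⟩
  | mul x y _ _ hx hy =>
    obtain ⟨n, rfl | rfl⟩ := hx <;> obtain ⟨m, rfl | rfl⟩ := hy
    · exact ⟨n + m, Or.inl (by group)⟩
    · exact ⟨n + m, Or.inr (by group)⟩
    · exact ⟨n - m, Or.inr (by rw [mul_assoc, ro_Rz]; group)⟩
    · exact ⟨n - m, Or.inl (by
        rw [mul_assoc, ← mul_assoc ro, ro_Rz, mul_assoc, gen_sq]; group)⟩
  | inv x _ hx =>
    obtain ⟨n, rfl | rfl⟩ := hx
    · exact ⟨-n, Or.inl (by group)⟩
    · exact ⟨n, Or.inr (by rw [mul_inv_rev, gen_inv, ← zpow_neg, ro_Rz, neg_neg])⟩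

/-- a generator acting on the double cover -/
noncomputable def pm (i : Fin 3) (c : G → ZMod 2) (hc : ∀ x, c (x * gen i) = c x) :
    Equiv.Perm (G × ZMod 2) :=
  Function.Involutive.toPerm (fun p => (p.1 * gen i, p.2 + c p.1)) fun p => by
    simp only [mul_assoc, gen_sq, mul_one, hc, add_assoc, CharTwo.add_self_eq_zero, add_zero]

theorem ch_ro (x : G) : ch1 (D : Set G) (x * ro) = ch1 D x :=
  ch1_eq.2 (Subgroup.mul_mem_cancel_right _ ro_D)
theorem ch_nu (x : G) : ch1 (D : Set G) (x * nu) = ch1 D x :=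
  ch1_eq.2 (Subgroup.mul_mem_cancel_right _ nu_D)

theorem pm_sq (i : Fin 3) (c : G → ZMod 2) (hc : ∀ x, c (x * gen i) = c x) :
    pm i c hc * pm i c hc = 1 := Equiv.ext fun p => (pm i c hc).left_inv p

noncomputable def act : G →* Equiv.Perm (G × ZMod 2) :=
  lift (pm 0 0 fun _ => rfl) (pm 1 _ ch_ro) (pm 2 _ ch_nu) (pm_sq _ _ _) (pm_sq _ _ _) (pm_sq _ _ _)
    (by
      have h : ∀ p : G × ZMod 2, ((pm 0 0 fun _ => rfl) * pm 1 _ ch_ro * pm 2 _ ch_nu) p =
          (p.1 * (sg * ro * nu)⁻¹, p.2) := fun p => by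
        change (p.1 * nu * ro * sg, p.2 + ch1 D p.1 + ch1 D (p.1 * nu) + 0) = _
        simp [ch_nu, add_assoc, CharTwo.add_self_eq_zero, mul_assoc]
      ext1 p
      rw [pow_succ, pow_two, Equiv.Perm.mul_apply, Equiv.Perm.mul_apply, h, h, h]
      refine Prod.ext ?_ rfl
      change p.1 * _ * _ * _ = p.1
      rw [mul_assoc, mul_assoc, ← pow_three, inv_pow, gen_cube, inv_one, mul_one])

/-- the number of crossings with the horizontal line -/
noncomputable def eta (x : G) : ZMod 2 := (act x⁻¹ (1, 0)).2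

theorem act_gen (i : Fin 3) (p : G × ZMod 2) :
    act (gen i) p = (p.1 * gen i, p.2 + if i = 0 then 0 else ch1 D p.1) := by
  fin_cases i
  · exact congrArg (· p) (lift_sg (a := pm 0 0 fun _ => rfl))
  · exact congrArg (· p) (lift_ro (b := pm 1 _ ch_ro))
  · exact congrArg (· p) (lift_nu (c := pm 2 _ ch_nu))

theorem act_fst (x : G) : (act x⁻¹ (1, 0)).1 = x := by
  refine ind_right (p := fun x => (act x⁻¹ (1, 0)).1 = x) 1 (by simp) (fun x i h => ?_) x
  rw [mul_inv_rev, gen_inv, map_mul, Equiv.Perm.mul_apply, act_gen, h]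

theorem eta_gen (x : G) (i : Fin 3) :
    eta (x * gen i) = eta x + if i = 0 then 0 else ch1 D x := by
  rw [eta, mul_inv_rev, gen_inv, map_mul, Equiv.Perm.mul_apply, act_gen, act_fst, eta]

theorem eta_one : eta 1 = 0 := by simp [eta]

theorem eta_left {d : G} (hd : d ∈ D) (x : G) : eta (d * x) = eta x + eta d := by
  refine ind_right (p := fun x => eta (d * x) = eta x + eta d) 1 (by simp [eta_one])
    (fun x i h => ?_) x
  rw [← mul_assoc, eta_gen, eta_gen, h, ch1_eq.2 (Subgroup.mul_mem_cancel_left _ hd)]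
  ring

/-- the upper half plane -/
def A : Set G := {x | eta x = 0}

theorem one_A : (1 : G) ∈ A := eta_one
theorem A_sg (x : G) : x * sg ∈ A ↔ x ∈ A := by simp [A, eta_gen]
theorem A_gen {x : G} (h : x ∉ D) (i : Fin 3) : x * gen i ∈ A ↔ x ∈ A := by
  simp [A, eta_gen, ch1, h]
theorem A_ro {x : G} (h : x ∈ D) : x * ro ∈ A ↔ x ∉ A := by
  simp only [A, eta_gen, ch1, mem_ofPred_eq, SetLike.mem_coe, h]
  generalize eta x = a
  revert a
  decide
theorem A_R (x : G) : x * R ∈ A ↔ x ∈ A := by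
  simp only [A, R, ← mul_assoc, eta_gen, ch_ro, mem_ofPred_eq]
  simp [add_assoc, CharTwo.add_self_eq_zero]

theorem A_E {e : G} (he : e ∈ E) (x : G) : x * e ∈ A ↔ x ∈ A := by
  induction he using Subgroup.closure_induction generalizing x with
  | mem e he => rcases he with rfl | rfl; exacts [A_sg x, A_R x]
  | one => rw [mul_one]
  | mul a b _ _ ha hb => rw [← mul_assoc, hb, ha]
  | inv a _ ha => rw [← ha, inv_mul_cancel_right]

theorem E_A {e : G} (he : e ∈ E) : e ∈ A := by simpa using (A_E he 1).2 one_A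
theorem Rz_E (n : ℤ) : R ^ n ∈ E := zpow_mem R_E n
theorem Rz_A (n : ℤ) (x : G) : R ^ n * x ∈ A ↔ x ∈ A := by
  have : eta (R ^ n) = 0 := E_A (Rz_E n)
  simp only [A, mem_ofPred_eq, eta_left (zpow_mem R_D n), this, add_zero]
theorem ro_A (x : G) : ro * x ∈ A ↔ x ∉ A := by
  have : eta ro = 1 := by simpa [eta_one, ch1, one_mem] using eta_gen 1 1
  simp only [A, mem_ofPred_eq, eta_left ro_D, this]
  generalize eta x = a
  revert a
  decide

theorem AD {x : G} (hA : x ∈ A) (hD : x ∈ D) : x ∈ Subgroup.zpowers R := by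
  obtain ⟨n, rfl | rfl⟩ := mem_D hD
  · exact ⟨n, rfl⟩
  · exact absurd one_A ((ro_A 1).1 (by simpa using (Rz_A n ro).1 hA))

/-- the half plane is connected -/
theorem A_ind {p : G → Prop} (h1 : p 1) (hs : ∀ x ∈ A, p x → p (x * sg))
    (hR : ∀ x ∈ A, p (x * R) ↔ p x) (hr : ∀ x ∈ A, x ∉ D → p x → p (x * ro)) : ∀ x ∈ A, p x := by
  have hz : ∀ n : ℤ, p (R ^ n) := fun n => by
    induction n using Int.induction_on with
    | zero => simpa
    | succ n ih => rw [zpow_add_one]; exact (hR _ (E_A (Rz_E _))).2 ih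
    | pred n ih => rw [← hR _ (E_A (Rz_E _)), ← zpow_add_one, sub_add_cancel]; exact ih
  have k : ∀ x, (x ∈ A → p x) → x * ro ∈ A → p (x * ro) := fun x h hx => by
    by_cases hD : x ∈ D
    · obtain ⟨n, e⟩ := AD hx (mul_mem hD ro_D)
      exact e ▸ hz n
    · have := (A_gen hD 1).1 hx
      exact hr x this hD (h this)
  refine ind_right (p := fun x => x ∈ A → p x) 1 (fun _ => h1) fun x i h hx => ?_
  fin_cases i
  · exact hs x ((A_sg x).1 hx) (h ((A_sg x).1 hx))
  · exact k x h hx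
  · have e : x * nu = x * ro * R := by simp [R, mul_assoc]
    change p (x * nu)
    change x * nu ∈ A at hx
    rw [e] at hx ⊢
    rw [A_R] at hx
    exact (hR _ hx).2 (k x h hx)

/-- `w X` lies in `Y` -/
def Sub (w : G) (X Y : Set G) : Prop := ∀ y ∈ X, w * y ∈ Y

theorem Sub.mul {w w' : G} {X Y Z : Set G} (h' : Sub w' Y Z) (h : Sub w X Y) : Sub (w' * w) X Z :=
  fun y hy => by rw [mul_assoc]; exact h' _ (h y hy)
theorem Sub.inv {w : G} {X Y : Set G} (h : Sub w X Y) : Sub w⁻¹ Yᶜ Xᶜ :=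
  fun y hy hx => hy (by simpa using h _ hx)
theorem Sub.pow {w : G} {X : Set G} (h : Sub w X X) (n : ℕ) : Sub (w ^ n) X X := by
  induction n with
  | zero => exact fun y hy => by simpa
  | succ n ih => rw [pow_succ]; exact ih.mul h
theorem Sub.zpow {w : G} {X : Set G} (h : Sub w X X) {n : ℤ} (hn : 0 ≤ n) : Sub (w ^ n) X X := by
  obtain ⟨k, rfl⟩ := Int.eq_ofNat_of_zero_le hn
  exact zpow_natCast w k ▸ h.pow k

/-- ping-pong -/
theorem ping {e : G} (he : e ∈ E) (hn : e ∉ Subgroup.zpowers R) : Sub (e * ro) A A := by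
  have nD : ∀ y ∈ A, e * ro * y ∉ D := fun y hy hD => by
    have h1 : ro * y ∉ A := fun h => (ro_A y).1 h hy
    obtain ⟨n, h | h⟩ := mem_D hD
    · exact h1 (by
        rw [show ro * y = e⁻¹ * R ^ n by rw [← h]; group]
        exact E_A (mul_mem (inv_mem he) (Rz_E n)))
    · have h2 := E_A (mul_mem (inv_mem he) (Rz_E n))
      refine h1 ?_
      rw [show ro * y = e⁻¹ * R ^ n * ro by rw [mul_assoc e⁻¹, ← h]; group, A_gen fun hD => hn ?_]
      · exact h2
      · have := AD h2 hD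
        rwa [Subgroup.mul_mem_cancel_right _ (Subgroup.zpow_mem_zpowers R n), inv_mem_iff] at this
  refine A_ind ?_ (fun x _ h => ?_) (fun x _ => ?_) fun x hx _ h => ?_
  · rw [mul_one, A_gen fun hD => hn (AD (E_A he) hD)]
    exact E_A he
  · rwa [← mul_assoc, A_sg]
  · rw [← mul_assoc, A_R]
  · rwa [← mul_assoc, A_gen (nD x hx)]

theorem not_zp {x : G} (h1 : cls x ≠ 1) (h2 : cls x ≠ .sr 3) : x ∉ Subgroup.zpowers R := by
  rintro ⟨n, rfl⟩
  have hR : cls R = .sr 3 := by simp [cls, R]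
  have h : ∀ n : ℤ, cls (R ^ n) = 1 ∨ cls (R ^ n) = .sr 3 := fun n => by
    induction n using Int.induction_on with
    | zero => simp
    | succ n ih => rw [zpow_add_one, map_mul, hR]; rcases ih with e | e <;> rw [e] <;> decide
    | pred n ih =>
      rw [zpow_sub_one, map_mul, map_inv, hR]; rcases ih with e | e <;> rw [e] <;> decide
  exact (h n).elim h1 h2

theorem sg_not : sg ∉ Subgroup.zpowers R :=
  not_zp (by simp only [cls, lift_sg]; decide) (by simp only [cls, lift_sg]; decide)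

theorem U_sub : Sub U A A := ping sg_E sg_not

/-- exhaustion -/
theorem exh {g y : G} (h : Sub g A A) (hy : y ∈ A) (hy' : g⁻¹ * y ∉ A) : Fw g A ∧ Fw g⁻¹ Aᶜ := by
  have nD : ∀ k : ℕ, 0 < k → g ^ k ∉ D := fun k hk hD => by
    obtain ⟨k, rfl⟩ := Nat.exists_eq_add_one_of_ne_zero hk.ne'
    obtain ⟨n, e | e⟩ := mem_D hD
    · refine hy' ?_
      have := h.pow k _ ((Rz_A (-n) y).2 hy)
      rwa [zpow_neg, ← e, ← mul_assoc, pow_succ', mul_inv_rev, mul_inv_cancel_left] at this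
    · have := h.pow (k + 1) _ hy
      rw [e, mul_assoc, Rz_A, ro_A] at this
      exact this hy
  have sub : ∀ g' : G, (∀ k : ℕ, 0 < k → g' ^ k ∉ D) → Fw g' (D : Set G)ᶜ := fun g' hg =>
    fw_of_lt fun γ n m l hn hm => hg (n - m) (by omega) (by
      have := D.mul_mem hn (D.inv_mem hm)
      rwa [mul_inv_rev, mul_assoc, mul_inv_cancel_left, ← pow_sub _ l.le] at this)
  have s1 := sub g nD
  have s2 := sub g⁻¹ fun k hk hD => nD k hk (by rwa [inv_pow, inv_mem_iff] at hD)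
  constructor
  · refine ind_right y (Eventually.of_forall fun n => h.pow n y hy) fun x i hx => ?_
    exact (hx.and (s1 x)).mono fun n hn => by rw [← mul_assoc, A_gen hn.2]; exact hn.1
  · refine ind_right (g⁻¹ * y) (Eventually.of_forall fun n => h.inv.pow n _ hy') fun x i hx => ?_
    exact (hx.and (s2 x)).mono fun n hn => by
      rw [← mul_assoc, mem_compl_iff, A_gen hn.2]; exact hn.1

theorem exh1 {e g : G} (he : e ∈ E) (hn : e ∉ Subgroup.zpowers R) (h : Sub g A A) :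
    Fw (e * ro * g) A ∧ Fw (e * ro * g)⁻¹ Aᶜ :=
  exh ((ping he hn).mul h) one_A (by
    rw [mul_one, mul_inv_rev]
    refine h.inv _ ?_
    rw [mul_inv_rev, gen_inv, mem_compl_iff, ro_A, not_not]
    exact E_A (inv_mem he))

theorem U_fw : Fw U A ∧ Fw U⁻¹ Aᶜ := by
  simpa only [mul_one, U] using exh1 (g := 1) sg_E sg_not fun y hy => by simpa

theorem A_ai (y : G) : FinMod R {x | ¬ (x * y ∈ A ↔ x ∈ A)} := by
  classical
  refine ind_right (p := fun y => FinMod R {x | ¬ (x * y ∈ A ↔ x ∈ A)}) 1 ⟨∅, by simp⟩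
    (fun y i h => ?_) y
  obtain ⟨F, hF⟩ := h
  refine ⟨insert y⁻¹ (insert (ro * y⁻¹) F), fun x hx => ?_⟩
  by_cases hD : x * y ∈ D
  · obtain ⟨n, e | e⟩ := mem_D hD
    · exact ⟨n, y⁻¹, by simp, by rw [← e]; group⟩
    · exact ⟨n, ro * y⁻¹, by simp, by rw [← mul_assoc, ← e]; group⟩
  · obtain ⟨n, r, hr, e⟩ := hF x (by rwa [mem_ofPred_eq, ← mul_assoc, A_gen hD] at hx)
    exact ⟨n, r, by simp [hr], e⟩

/-! ### The half plane `Q` -/

/-- the symmetry exchanging horizontal and vertical -/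
def om : G →* G := lift nu ro sg (gen_sq _) (gen_sq _) (gen_sq _) (by
  have : nu * ro * sg = (sg * ro * nu)⁻¹ := by simp [mul_assoc]
  rw [this, inv_pow, gen_cube, inv_one])

@[simp] theorem om_sg : om sg = nu := lift_sg
@[simp] theorem om_ro : om ro = ro := lift_ro
@[simp] theorem om_nu : om nu = sg := lift_nu
theorem om_U : om U = R⁻¹ := by simp [U, R_inv]
theorem om_R : om R = U⁻¹ := by simp [R, U_inv]
theorem om_om (x : G) : om (om x) = x :=
  DFunLike.congr_fun (hom_ext (f := om.comp om) (f' := MonoidHom.id G) fun i => by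
    fin_cases i <;> simp) x

/-- the left half plane -/
def Q : Set G := om ⁻¹' A

theorem mem_Q {x : G} : x ∈ Q ↔ om x ∈ A := Iff.rfl
theorem one_Q : (1 : G) ∈ Q := by simpa [mem_Q] using one_A
theorem Q_U (x : G) : x * U ∈ Q ↔ x ∈ Q := by
  rw [mem_Q, map_mul, om_U, A_E (inv_mem R_E), mem_Q]
theorem Q_nu (x : G) : x * nu ∈ Q ↔ x ∈ Q := by rw [mem_Q, map_mul, om_nu, A_sg, mem_Q]
theorem Uz_Q (n : ℤ) (x : G) : U ^ n * x ∈ Q ↔ x ∈ Q := by
  rw [mem_Q, map_mul, map_zpow, om_U, inv_zpow', Rz_A, mem_Q]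
theorem ro_Q (x : G) : ro * x ∈ Q ↔ x ∉ Q := by rw [mem_Q, map_mul, om_ro, ro_A, mem_Q]
theorem sg_Q (x : G) : sg * x ∈ Q ↔ x ∉ Q := by
  rw [← ro_Q, ← Uz_Q 1 (ro * x), zpow_one, U, mul_assoc, gen_gen]
theorem Q_gen {x : G} (h : om x ∉ D) (i : Fin 3) : x * gen i ∈ Q ↔ x ∈ Q := by
  fin_cases i
  · change om (x * sg) ∈ A ↔ _
    rw [map_mul, om_sg, A_gen h, mem_Q]
  · change om (x * ro) ∈ A ↔ _
    rw [map_mul, om_ro, A_gen h, mem_Q]
  · exact Q_nu x
theorem sub_Q {w : G} (h : Sub (om w) A A) : Sub w Q Q := fun y hy => by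
  rw [mem_Q, map_mul]; exact h _ hy
theorem Ri_sub : Sub R⁻¹ Q Q := sub_Q (by rw [map_inv, om_R, inv_inv]; exact U_sub)
theorem R_sub : Sub R Qᶜ Qᶜ := inv_inv R ▸ Ri_sub.inv
theorem R_fw : Fw R⁻¹ Q ∧ Fw R Qᶜ :=
  ⟨Fw.comap om (by rw [map_inv, om_R, inv_inv]; exact U_fw.1),
    Fw.comap om (X := Aᶜ) (by rw [om_R]; exact U_fw.2)⟩

theorem Q_ai (y : G) : FinMod U {x | ¬ (x * y ∈ Q ↔ x ∈ Q)} := by
  classical
  obtain ⟨F, hF⟩ := A_ai (om y)
  refine ⟨F.image om, fun x hx => ?_⟩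
  obtain ⟨n, r, hr, e⟩ := hF (om x) (by rwa [mem_ofPred_eq, ← map_mul])
  exact ⟨-n, om r, Finset.mem_image_of_mem _ hr, by
    rw [← om_om x, e, map_mul, map_zpow, om_R, inv_zpow']⟩

/-- half planes behind the other cusps do not meet the vertical line -/
theorem nest {f : G} (hf : f ∈ E) (h1 : f ∉ Subgroup.zpowers R) (h2 : sg * f ∉ Subgroup.zpowers R) :
    ∀ y ∈ A, f * ro * y ∈ Q ↔ f * ro ∈ Q := by
  have UA : ∀ n : ℤ, 0 ≤ n → U ^ n ∈ A := fun n hn => by simpa using U_sub.zpow hn 1 one_A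
  have UA' : ∀ n : ℤ, 0 ≤ n → U ^ (n + 1) * ro ∈ A := fun n hn => by
    rw [zpow_add_one, U, mul_assoc, mul_assoc, gen_sq, mul_one, A_sg]; exact UA n hn
  have nD : ∀ y ∈ A, om (f * ro * y) ∉ D := fun y hy hD => by
    have a1 : f * ro * y ∉ E := fun h => (ro_A y).1 (E_A (by
      simpa [mul_assoc] using mul_mem (inv_mem hf) h)) hy
    have a2 : ro * (f * ro * y) ∉ A := fun h => (ro_A _).1 h (ping hf h1 y hy)
    have a3 : U⁻¹ * (f * ro * y) ∉ A := fun h => by
      rw [U_inv, mul_assoc, ro_A] at h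
      exact h (by simpa only [mul_assoc] using ping (mul_mem sg_E hf) h2 y hy)
    generalize f * ro * y = z at hD a1 a2 a3
    obtain ⟨n, e | e⟩ := mem_D hD
    · have e' : z = U ^ (-n) := by rw [← om_om z, e, map_zpow, om_R, inv_zpow']
      subst e'
      rcases lt_trichotomy n 0 with l | l | l
      · exact a3 (by rw [← zpow_neg_one, ← zpow_add]; exact UA _ (by omega))
      · exact a1 (by simp [l, one_mem])
      · refine a2 ?_
        rw [ro_Uz, neg_neg, ← sub_add_cancel n 1]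
        exact UA' _ (by omega)
    · have e' : z = U ^ (-n) * ro := by
        rw [← om_om z, e, map_mul, map_zpow, om_R, inv_zpow', om_ro]
      subst e'
      rcases lt_trichotomy n (-1) with l | l | l
      · refine a3 ?_
        rw [← mul_assoc, ← zpow_neg_one, ← zpow_add, show -1 + -n = -n - 2 + 1 by ring]
        exact UA' _ (by omega)
      · exact a1 (by simpa [l, U, mul_assoc, gen_sq] using sg_E)
      · refine a2 ?_
        rw [← mul_assoc, ro_Uz, neg_neg, mul_assoc, gen_sq, mul_one]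
        exact UA _ (by omega)
  refine A_ind (by rw [mul_one]) (fun x hx h => ?_) (fun x hx => ?_) fun x hx _ h => ?_
  · rwa [← mul_assoc, Q_gen (nD x hx)]
  · rw [R, ← mul_assoc, ← mul_assoc, Q_nu, Q_gen (nD x hx)]
  · rwa [← mul_assoc, Q_gen (nD x hx)]

theorem RU_sub {i : ℤ} (hi : 1 ≤ i) : Sub (R ^ i * U) A Qᶜ := by
  have h : Sub (R * U) A Qᶜ := fun y hy hQ => by
    rw [U, ← mul_assoc R, nest (mul_mem R_E sg_E)
      (not_zp (by simp only [cls, R, map_mul, lift_sg, lift_ro, lift_nu]; decide)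
        (by simp only [cls, R, map_mul, lift_sg, lift_ro, lift_nu]; decide))
      (not_zp (by simp only [cls, R, map_mul, lift_sg, lift_ro, lift_nu]; decide)
        (by simp only [cls, R, map_mul, lift_sg, lift_ro, lift_nu]; decide)) y hy,
      mul_assoc, ← U, Q_U, R, ro_Q] at hQ
    exact hQ (by simpa using (Q_nu 1).2 one_Q)
  have := (R_sub.zpow (n := i - 1) (by omega)).mul h
  rwa [← mul_assoc, ← zpow_add_one, sub_add_cancel] at this

theorem RiU_sub {i : ℤ} (hi : i ≤ -1) : Sub (R ^ i * U) A Q := by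
  have h : Sub (R⁻¹ * U) A Q := fun y hy => by
    rw [U, ← mul_assoc R⁻¹, nest (mul_mem (inv_mem R_E) sg_E)
      (not_zp (by simp only [cls, R_inv, map_mul, lift_sg, lift_ro, lift_nu]; decide)
        (by simp only [cls, R_inv, map_mul, lift_sg, lift_ro, lift_nu]; decide))
      (not_zp (by simp only [cls, R_inv, map_mul, lift_sg, lift_ro, lift_nu]; decide)
        (by simp only [cls, R_inv, map_mul, lift_sg, lift_ro, lift_nu]; decide)) y hy,
      mul_assoc, ← U, Q_U]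
    simpa using Ri_sub 1 one_Q
  have := (Ri_sub.zpow (n := -i - 1) (by omega)).mul h
  rwa [← mul_assoc, ← zpow_add_one, sub_add_cancel, inv_zpow', neg_neg] at this

theorem sRs : sg * R * sg = R⁻¹ * sg * R⁻¹ := by
  have h : sg * R * (sg * R) * (sg * R) = 1 := by
    rw [← pow_three', R, ← mul_assoc, gen_cube]
  rw [eq_mul_inv_iff_mul_eq, ← mul_one (R⁻¹ * sg), ← h]
  have : sg * R * sg * R = (sg * R)⁻¹ := eq_inv_of_mul_eq_one_left (by simpa only [mul_assoc] using h)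
  rw [this, h, mul_inv_rev, gen_inv, mul_one]

/-- a cusp is the base cusp, adjacent to it, or separated from it by a gate -/
theorem bridge {e : G} (he : e ∈ E) : e ∈ Subgroup.zpowers R ∨
    (∃ a b : ℤ, e = R ^ a * sg * R ^ b) ∨ ∃ n : ℤ, Sub ((R ^ n * sg * R)⁻¹ * e * ro) A Qᶜ := by
  have sR : ∀ (k : ℤ) (e : G), (e ∈ Subgroup.zpowers R ∨ (∃ a b : ℤ, e = R ^ a * sg * R ^ b) ∨
      ∃ n : ℤ, Sub ((R ^ n * sg * R)⁻¹ * e * ro) A Qᶜ) → e * R ^ k ∈ Subgroup.zpowers R ∨
      (∃ a b : ℤ, e * R ^ k = R ^ a * sg * R ^ b) ∨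
      ∃ n : ℤ, Sub ((R ^ n * sg * R)⁻¹ * (e * R ^ k) * ro) A Qᶜ := by
    rintro k e (h | ⟨a, b, rfl⟩ | ⟨n, h⟩)
    · exact Or.inl (mul_mem h ⟨k, rfl⟩)
    · exact Or.inr (Or.inl ⟨a, b + k, by group⟩)
    · refine Or.inr (Or.inr ⟨n, fun y hy => ?_⟩)
      have := h _ ((Rz_A (-k) y).2 hy)
      rw [mul_assoc, ← mul_assoc ro, ro_Rz, neg_neg] at this
      simpa only [mul_assoc] using this
  have sS : ∀ e ∈ E, (e ∈ Subgroup.zpowers R ∨ (∃ a b : ℤ, e = R ^ a * sg * R ^ b) ∨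
      ∃ n : ℤ, Sub ((R ^ n * sg * R)⁻¹ * e * ro) A Qᶜ) → e * sg ∈ Subgroup.zpowers R ∨
      (∃ a b : ℤ, e * sg = R ^ a * sg * R ^ b) ∨
      ∃ n : ℤ, Sub ((R ^ n * sg * R)⁻¹ * (e * sg) * ro) A Qᶜ := by
    rintro e he (⟨a, rfl⟩ | ⟨a, b, rfl⟩ | ⟨n, h⟩)
    · exact Or.inr (Or.inl ⟨a, 0, by simp⟩)
    · rcases (by omega : b = 0 ∨ b = 1 ∨ b = -1 ∨ 2 ≤ b ∨ b ≤ -2) with rfl | rfl | rfl | l | l
      · exact Or.inl ⟨a, by simp [mul_assoc, gen_sq]⟩
      · refine Or.inr (Or.inl ⟨a - 1, -1, ?_⟩)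
        rw [zpow_one, mul_assoc, mul_assoc, ← mul_assoc sg, sRs]
        group
      · refine Or.inr (Or.inl ⟨a + 1, 1, ?_⟩)
        have := congrArg Inv.inv sRs
        simp only [mul_inv_rev, gen_inv, inv_inv] at this
        rw [zpow_neg_one, mul_assoc, mul_assoc, this]
        group
      · refine Or.inr (Or.inr ⟨a, ?_⟩)
        have e : (R ^ a * sg * R)⁻¹ * (R ^ a * sg * R ^ b * sg) * ro = R ^ (b - 1) * U := by
          rw [U]; group
        exact e ▸ RU_sub (by omega)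
      · refine Or.inr (Or.inr ⟨a + 1, ?_⟩)
        have e : (R ^ (a + 1) * sg * R)⁻¹ * (R ^ a * sg * R ^ b * sg) * ro =
            sg * (R ^ (b + 1) * U) := by
          have : (R ^ (a + 1) * sg * R)⁻¹ * (R ^ a * sg * R ^ b * sg) * ro =
              R⁻¹ * sg⁻¹ * R⁻¹ * sg * R ^ b * sg * ro := by group
          rw [this, gen_inv, ← sRs, U, mul_assoc (sg * R), gen_sq]
          group
        exact e ▸ Sub.mul (fun y hy => fun h => (sg_Q y).1 h hy) (RiU_sub (by omega))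
    · have hf : (R ^ n * sg * R)⁻¹ * e * sg ∈ E :=
        mul_mem (mul_mem (inv_mem (mul_mem (mul_mem (Rz_E n) sg_E) R_E)) he) sg_E
      by_cases h1 : (R ^ n * sg * R)⁻¹ * e * sg ∈ Subgroup.zpowers R
      · obtain ⟨k, hk⟩ := h1
        have hk' : R ^ k = (R ^ n * sg * R)⁻¹ * e * sg := hk
        exact Or.inr (Or.inl ⟨n, 1 + k, by rw [zpow_one_add, hk']; group⟩)
      by_cases h2 : sg * ((R ^ n * sg * R)⁻¹ * e * sg) ∈ Subgroup.zpowers R
      · obtain ⟨k, hk⟩ := h2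
        have hk' : R ^ k = sg * ((R ^ n * sg * R)⁻¹ * e * sg) := hk
        refine Or.inr (Or.inl ⟨n - 1, k - 1, ?_⟩)
        have : R ^ (n - 1) * sg * R ^ (k - 1) = R ^ n * (R⁻¹ * sg * R⁻¹) * R ^ k := by group
        rw [this, ← sRs, hk', mul_assoc (R ^ n), mul_assoc (sg * R), gen_gen]
        group
      refine Or.inr (Or.inr ⟨n, fun y hy hQ => ?_⟩)
      rw [← mul_assoc _ e, nest hf h1 h2 y hy, mul_assoc, ← U, Q_U] at hQ
      refine h sg (E_A sg_E) ?_
      rwa [mul_assoc, ← U_inv, ← Q_U, inv_mul_cancel_right]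
  induction he using Subgroup.closure_induction_right with
  | one => exact Or.inl (one_mem _)
  | mul_right x hx y hy ih =>
    rcases hy with rfl | rfl
    · exact sS x hx ih
    · simpa only [zpow_one] using sR 1 x ih
  | mul_inv_cancel x hx y hy ih =>
    rcases hy with rfl | rfl
    · rw [gen_inv]; exact sS x hx ih
    · simpa only [zpow_neg_one] using sR (-1) x ih

end Pool.Agent.MP_7ebdba_gt.ge

end MrgPart1

-- ======== part 2: formerly Pool.Agent.MP_7ebdba_gt.ge.Spec2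
section MrgPart2

/-! The gate of a positive path, the crossing certificate and the remaining statements. -/

namespace Pool.Agent.MP_7ebdba_gt.ge

open ch Set

/-- the left side of the gate -/
def X0 : Set G := {x | (x ∈ A → (R * R)⁻¹ * x ∈ Q) ∧ (x ∉ A → R * R * x ∈ Q)}
/-- the upper end of the gate -/
def M0 : Set G := {x | (R * R * U)⁻¹ * x ∈ A}
/-- the lower end of the gate -/
def N0 : Set G := {x | ro * x ∈ M0}

/-- the line of `g` runs from right to left through the gate -/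
def Cert1 (g : G) : Prop := Fw g (X0 \ (N0 ∪ M0)) ∧ Fw g⁻¹ (X0ᶜ \ (N0 ∪ M0))
/-- the line of `g` crosses the gate -/
def Cert (g : G) : Prop := Cert1 g ∨ Cert1 g⁻¹

/-- row K: every line that is not positive crosses a translate of the gate -/
def KStmt : Prop := ∀ g, cls g = 1 → g ≠ 1 → ¬ Pos g → ∃ w, Cert (w⁻¹ * g * w)

/-- row PULL: a crossing line separates the two ends of the gate -/
def PullStmt : Prop :=
  NtvStmt → ∀ ι : S 2 →* G, Function.Injective ι → (∀ x, cls x = 1 ↔ x ∈ ι.range) →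
    ∀ g w, Cert (w⁻¹ * ι g * w) → Sep g {y | w⁻¹ * ι y ∈ N0} {y | w⁻¹ * ι y ∈ M0}

end Pool.Agent.MP_7ebdba_gt.ge

end MrgPart2

-- ======== part 3: formerly Pool.Agent.MP_7ebdba_gt.ge.K
section MrgPart3

/-! Every line that is not positive crosses a translate of the gate. -/

namespace Pool.Agent.MP_7ebdba_gt.ge

open ch Set Filter

section Cyc
variable {P : Type} [Group P] {K K0 : Subgroup P} {s : P}

/-- the product of the `e * s` -/
def pr (s : P) (l : List P) : P := (l.map (· * s)).prod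

@[simp] theorem pr_nil : pr s [] = 1 := rfl
@[simp] theorem pr_cons (e : P) (l : List P) : pr s (e :: l) = e * s * pr s l := by simp [pr]
@[simp] theorem pr_append (l l' : List P) : pr s (l ++ l') = pr s l * pr s l' := by simp [pr]

/-- the three kinds of conjugacy classes -/
def Red (K K0 : Subgroup P) (s g : P) : Prop :=
  ∃ w, w⁻¹ * g * w ∈ K ∨ w⁻¹ * g * w * s ∈ K0 ∨
    ∃ l, l ≠ [] ∧ (∀ e ∈ l, e ∈ K ∧ e ∉ K0) ∧ w⁻¹ * g * w = pr s l

theorem Red.conj {g g' : P} (v : P) (e : v⁻¹ * g * v = g') (h : Red K K0 s g') : Red K K0 s g := by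
  obtain ⟨w, h⟩ := h
  exact ⟨v * w, by rwa [show (v * w)⁻¹ * g * (v * w) = w⁻¹ * g' * w by rw [← e]; group]⟩

theorem cyc (hs : s * s = 1) (h0 : ∀ e ∈ K0, s * e * s ∈ K) (n : ℕ) : ∀ l : List P, l.length ≤ n →
    (∀ e ∈ l, e ∈ K) → ∀ k ∈ K, Red K K0 s (pr s l * k) := by
  induction n using Nat.strong_induction_on with
  | _ n ih =>
  rintro (_ | ⟨e1, l⟩) hl hK k hk
  · exact ⟨1, Or.inl (by simpa)⟩
  have hK' : ∀ e ∈ (k * e1) :: l, e ∈ K := by
    intro e he
    rcases List.mem_cons.1 he with rfl | he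
    · exact mul_mem hk (hK _ (by simp))
    · exact hK _ (by simp [he])
  refine Red.conj k⁻¹ (g' := pr s ((k * e1) :: l)) (by simp [mul_assoc]) ?_
  have hl' : ((k * e1) :: l).length ≤ n := by simpa using hl
  have hne : (k * e1) :: l ≠ [] := by simp
  generalize (k * e1) :: l = m at hK' hl' hne
  by_cases h : ∀ e ∈ m, e ∉ K0
  · exact ⟨1, Or.inr (Or.inr ⟨m, hne, fun e he => ⟨hK' e he, h e he⟩, by simp⟩)⟩
  push Not at h
  obtain ⟨e, he, he0⟩ := h
  obtain ⟨l1, l2, rfl⟩ := List.append_of_mem he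
  refine Red.conj (pr s l1 * (e * s)) (g' := pr s (l2 ++ l1) * (e * s)) (by simp [mul_assoc]) ?_
  have hK2 : ∀ e ∈ l2 ++ l1, e ∈ K := fun e he => hK' e (by
    simp only [List.mem_append, List.mem_cons] at he ⊢; tauto)
  have hl2 : (l2 ++ l1).length + 1 ≤ n := by
    simp only [List.length_append, List.length_cons] at hl' ⊢; omega
  generalize l2 ++ l1 = m at hK2 hl2
  rcases m.eq_nil_or_concat' with rfl | ⟨m', e', rfl⟩
  · exact ⟨1, Or.inr (Or.inl (by simpa [mul_assoc, hs]))⟩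
  · have := ih m'.length (by simp at hl2; omega) m' le_rfl (fun e he => hK2 e (by simp [he]))
      (e' * (s * e * s)) (mul_mem (hK2 _ (by simp)) (h0 e he0))
    simpa [mul_assoc] using this

theorem nf_mul {g : P} (h : ∃ l k, (∀ e ∈ l, e ∈ K) ∧ k ∈ K ∧ g = pr s l * k) :
    (∀ k ∈ K, ∃ l k', (∀ e ∈ l, e ∈ K) ∧ k' ∈ K ∧ g * k = pr s l * k') ∧
      ∃ l k', (∀ e ∈ l, e ∈ K) ∧ k' ∈ K ∧ g * s = pr s l * k' := by
  obtain ⟨l, k, h1, h2, rfl⟩ := h
  refine ⟨fun k' hk' => ⟨l, k * k', h1, mul_mem h2 hk', mul_assoc _ _ _⟩,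
    l ++ [k], 1, fun e he => ?_, one_mem _, by simp [mul_assoc]⟩
  rcases List.mem_append.1 he with he | he
  · exact h1 e he
  · rwa [List.mem_singleton.1 he]

end Cyc

theorem cls_R : cls R = .sr 3 := by simp [cls, R]
theorem cls_sg : cls sg = .sr 5 := lift_sg
theorem cls_ro : cls ro = .sr 0 := lift_ro

theorem redG (g : G) : Red E (Subgroup.zpowers R) ro g := by
  have : ∃ l k, (∀ e ∈ l, e ∈ E) ∧ k ∈ E ∧ g = pr ro l * k := by
    refine ind_right (p := fun g => ∃ l k, (∀ e ∈ l, e ∈ E) ∧ k ∈ E ∧ g = pr ro l * k) 1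
      ⟨[], 1, by simp, one_mem _, by simp⟩ (fun x i h => ?_) g
    fin_cases i
    · exact (nf_mul h).1 sg sg_E
    · exact (nf_mul h).2
    · have := (nf_mul (nf_mul h).2).1 R R_E
      rwa [R, mul_assoc, gen_gen] at this
  obtain ⟨l, k, h1, h2, rfl⟩ := this
  refine cyc (gen_sq _) ?_ _ l le_rfl h1 k h2
  rintro e ⟨n, rfl⟩
  rw [ro_Rz, mul_assoc, gen_sq, mul_one]
  exact Rz_E _

theorem redE {g : G} (hg : g ∈ E) : Red (Subgroup.zpowers (sg * R)) ⊥ sg g := by
  have : ∃ l k, (∀ e ∈ l, e ∈ Subgroup.zpowers (sg * R)) ∧ k ∈ Subgroup.zpowers (sg * R) ∧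
      g = pr sg l * k := by
    induction hg using Subgroup.closure_induction_right with
    | one => exact ⟨[], 1, by simp, one_mem _, by simp⟩
    | mul_right x _ y hy ih =>
      rcases hy with rfl | rfl
      · exact (nf_mul ih).2
      · have := (nf_mul (nf_mul ih).2).1 _ (Subgroup.mem_zpowers _)
        rwa [mul_assoc, gen_gen] at this
    | mul_inv_cancel x _ y hy ih =>
      rcases hy with rfl | rfl
      · rw [gen_inv]; exact (nf_mul ih).2
      · have := (nf_mul ((nf_mul ih).1 _ (inv_mem (Subgroup.mem_zpowers _)))).2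
        rwa [mul_inv_rev, gen_inv, mul_assoc, mul_assoc, gen_sq, mul_one] at this
  obtain ⟨l, k, h1, h2, rfl⟩ := this
  refine cyc (gen_sq _) ?_ _ l le_rfl h1 k h2
  intro e he
  rw [Subgroup.mem_bot.1 he, mul_one, gen_sq]
  exact one_mem _

theorem tau_cases {e : G} (h : e ∈ Subgroup.zpowers (sg * R)) :
    e = 1 ∨ e = sg * R ∨ e = R⁻¹ * sg := by
  have h3 : sg * R * (sg * R) = R⁻¹ * sg := by
    rw [← mul_assoc, sRs, inv_mul_cancel_right]
  have h4 : R⁻¹ * sg * (R⁻¹ * sg) = sg * R := by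
    rw [← mul_assoc, ← sRs, mul_assoc, gen_sq, mul_one]
  obtain ⟨n, rfl⟩ := h
  change (sg * R) ^ n = 1 ∨ (sg * R) ^ n = _ ∨ (sg * R) ^ n = _
  induction n using Int.induction_on with
  | zero => simp
  | succ n ih =>
    rw [zpow_add_one]
    rcases ih with e | e | e <;> rw [e]
    · simp
    · exact Or.inr (Or.inr h3)
    · simp [mul_assoc]
  | pred n ih =>
    rw [zpow_sub_one, mul_inv_rev, gen_inv]
    rcases ih with e | e | e <;> rw [e]
    · simp
    · simp [mul_assoc, gen_sq]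
    · exact Or.inr (Or.inl h4)

/-! ### Certificates -/

/-- some conjugate crosses the gate -/
def CC (g : G) : Prop := ∃ w, Cert (w⁻¹ * g * w)

theorem CC.conj {g g' : G} (v : G) (e : v⁻¹ * g * v = g') (h : CC g') : CC g := by
  obtain ⟨w, h⟩ := h
  exact ⟨v * w, by rwa [show (v * w)⁻¹ * g * (v * w) = w⁻¹ * g' * w by rw [← e]; group]⟩

theorem CC.inv {g : G} (h : CC g⁻¹) : CC g := by
  obtain ⟨w, h⟩ := h
  refine ⟨w, ?_⟩
  rw [show w⁻¹ * g⁻¹ * w = (w⁻¹ * g * w)⁻¹ by group, Cert, inv_inv] at h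
  exact h.symm

theorem M0_iff {x : G} : x ∈ M0 ↔ ∃ y ∈ A, x = R * R * U * y :=
  ⟨fun h => ⟨_, h, by group⟩, by rintro ⟨y, hy, rfl⟩; simpa only [M0, mem_ofPred_eq, inv_mul_cancel_left]⟩

theorem M0_A {x : G} (h : x ∈ M0) : x ∈ A := by
  obtain ⟨y, hy, rfl⟩ := M0_iff.1 h
  have := (Rz_A 2 _).2 (U_sub y hy)
  rwa [zpow_two, ← mul_assoc] at this

theorem M0_Q {x : G} (h : x ∈ M0) : R⁻¹ * x ∉ Q ∧ (R * R * R)⁻¹ * x ∈ Q := by
  obtain ⟨y, hy, rfl⟩ := M0_iff.1 h
  constructor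
  · rw [show R⁻¹ * (R * R * U * y) = R ^ (1 : ℤ) * U * y by group]
    exact RU_sub le_rfl y hy
  · rw [show (R * R * R)⁻¹ * (R * R * U * y) = R ^ (-1 : ℤ) * U * y by group]
    exact RiU_sub le_rfl y hy

theorem RQ {x : G} (i j : ℤ) (hij : j ≤ i) (h : R ^ i * x ∈ Q) : R ^ j * x ∈ Q := by
  have := Ri_sub.zpow (n := i - j) (by omega) _ h
  rwa [show R⁻¹ ^ (i - j) * (R ^ i * x) = R ^ j * x by group] at this

theorem ro_RQ (i : ℤ) (x : G) : R ^ i * (ro * x) ∈ Q ↔ R ^ (-i) * x ∉ Q := by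
  rw [← ro_Q, ← mul_assoc, ← mul_assoc, ro_Rz, neg_neg]

theorem X0_iff {x : G} : x ∈ X0 ↔
    (x ∈ A → R ^ (-2 : ℤ) * x ∈ Q) ∧ (x ∉ A → R ^ (2 : ℤ) * x ∈ Q) := by
  rw [X0, mem_ofPred_eq, zpow_neg, zpow_two]

theorem M0_Q' {x : G} (h : x ∈ M0) : R ^ (-1 : ℤ) * x ∉ Q ∧ R ^ (-3 : ℤ) * x ∈ Q := by
  have := M0_Q h
  rwa [show (R * R * R)⁻¹ = R ^ (-3 : ℤ) by group, ← zpow_neg_one] at this

/-- horizontal lines -/
theorem cert_R : Cert1 R⁻¹ := by
  constructor
  · refine R_fw.1.shift.shift.shift.mono fun x hx => ?_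
    have h : R ^ (3 : ℤ) * x ∈ Q := by
      rwa [show R ^ (3 : ℤ) * x = R⁻¹⁻¹ * (R⁻¹⁻¹ * (R⁻¹⁻¹ * x)) by
        rw [inv_inv, zpow_ofNat, pow_three, mul_assoc, mul_assoc]]
    refine ⟨X0_iff.2 ⟨fun _ => RQ _ _ (by omega) h, fun _ => RQ _ _ (by omega) h⟩, ?_⟩
    rintro (h' | h')
    · exact (ro_RQ _ _).1 (M0_Q' h').2 h
    · exact (M0_Q' h').1 (RQ _ _ (by omega) h)
  · rw [inv_inv]
    refine R_fw.2.shift.shift.shift.mono fun x hx => ?_
    have h : R ^ (-3 : ℤ) * x ∉ Q := by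
      rwa [show R ^ (-3 : ℤ) * x = R⁻¹ * (R⁻¹ * (R⁻¹ * x)) by group]
    refine ⟨fun h' => ?_, ?_⟩
    · by_cases a : x ∈ A
      · exact h (RQ _ _ (by omega) ((X0_iff.1 h').1 a))
      · exact h (RQ _ _ (by omega) ((X0_iff.1 h').2 a))
    rintro (h' | h')
    · exact (M0_Q' h').1 ((ro_RQ _ _).2 fun h'' => h (RQ _ _ (by omega) h''))
    · exact h (M0_Q' h').2

theorem Cert1.pow {g : G} (h : Cert1 g) {k : ℕ} (hk : 0 < k) : Cert1 (g ^ k) :=
  ⟨h.1.pow hk, inv_pow g k ▸ h.2.pow hk⟩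
theorem Cert1.of_pow {g : G} {k : ℕ} (hk : 0 < k) (h : Cert1 (g ^ k)) : Cert1 g :=
  ⟨h.1.of_pow hk, Fw.of_pow hk ((inv_pow g k).symm ▸ h.2)⟩

theorem cc_par {g : G} {k : ℕ} (hk : 0 < k) (h1 : g ^ k ≠ 1) (h : g ^ k ∈ Subgroup.zpowers R) :
    CC g := by
  obtain ⟨j, e⟩ := h
  have e' : R ^ j = g ^ k := e
  refine ⟨1, ?_⟩
  rw [inv_one, one_mul, mul_one]
  rcases lt_trichotomy j 0 with l | l | l
  · refine Or.inl (Cert1.of_pow hk ?_)
    have := cert_R.pow (k := (-j).toNat) (by omega)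
    rwa [← zpow_natCast, Int.toNat_of_nonneg (by omega), inv_zpow', neg_neg, e'] at this
  · exact absurd (by rw [← e', l, zpow_zero]) h1
  · refine Or.inr (Cert1.of_pow hk ?_)
    have := cert_R.pow (k := j.toNat) (by omega)
    rwa [← zpow_natCast, Int.toNat_of_nonneg (by omega), inv_zpow, e', ← inv_pow] at this

/-- the region between two adjacent cusps -/
def Z : Set G := {x | x ∈ A ∧ sg * x ∈ A}

/-- lines crossing the edge between two adjacent cusps -/
theorem cc_edge {g : G} (h : Fw g (Qᶜ ∩ Z)) (h' : Fw g⁻¹ (Q ∩ Z)) : CC g := by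
  have k : ∀ x, R ^ (-2 : ℤ) * ro * x ∈ Z →
      (x ∈ X0 ↔ R ^ (-2 : ℤ) * ro * x ∉ Q) ∧ x ∉ N0 ∪ M0 := fun x hx => by
    have a : x ∉ A := by
      have := hx.1
      rwa [mul_assoc, Rz_A, ro_A] at this
    refine ⟨?_, ?_⟩
    · rw [X0_iff, mul_assoc, ro_RQ, neg_neg, not_not]
      exact ⟨fun h => h.2 a, fun h => ⟨fun h' => absurd h' a, fun _ => h⟩⟩
    rintro (h | h)
    · obtain ⟨y, hy, e⟩ := M0_iff.1 h
      have := hx.2
      rw [mul_assoc, e, show R ^ (-2 : ℤ) * (R * R * U * y) = U * y by group, U, mul_assoc, gen_gen,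
        ro_A] at this
      exact this hy
    · exact a (M0_A h)
  refine ⟨R ^ (-2 : ℤ) * ro, Or.inl ⟨(h.conj _).mono fun x hx => ⟨(k x hx.2).1.2 hx.1, (k x hx.2).2⟩, ?_⟩⟩
  rw [show ((R ^ (-2 : ℤ) * ro)⁻¹ * g * (R ^ (-2 : ℤ) * ro))⁻¹ =
    (R ^ (-2 : ℤ) * ro)⁻¹ * g⁻¹ * (R ^ (-2 : ℤ) * ro) by group]
  exact (h'.conj _).mono fun x hx => ⟨fun h => (k x hx.2).1.1 h hx.1, (k x hx.2).2⟩

theorem UA_iff {x : G} : U⁻¹ * x ∈ A ↔ sg * x ∉ A := by rw [U_inv, mul_assoc, ro_A]

/-- lines crossing the horizontal part of the gate -/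
theorem cc_seg {g : G} {d : ℤ} (hd : d ≤ -1) (h : Fw g {x | (R ^ d * U)⁻¹ * x ∈ A})
    (h' : Fw g⁻¹ {x | U * x ∉ A}) : CC g := by
  refine ⟨1, Or.inl ?_⟩
  rw [inv_one, one_mul, mul_one]
  refine ⟨h.mono fun x hx => ?_, h'.mono fun x hx => ?_⟩
  · have q : x ∈ Q := by simpa only [mul_inv_cancel_left] using RiU_sub hd _ hx
    have a : x ∈ A := by
      have := (Rz_A d _).2 (U_sub _ hx)
      rwa [← mul_assoc, mul_inv_cancel_left] at this
    have q' : R ^ (0 : ℤ) * x ∈ Q := by simpa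
    refine ⟨X0_iff.2 ⟨fun _ => RQ _ _ (by omega) q', fun h => absurd a h⟩, ?_⟩
    rintro (h | h)
    · exact (ro_A x).1 (M0_A h) a
    · exact (M0_Q' h).1 (RQ _ _ (by omega) q')
  · have a : x ∉ A := fun h => hx (U_sub x h)
    have y : ro * (U * x) ∈ A := (ro_A _).2 hx
    have e : U * (ro * (U * x)) = ro * x := by simp [U, mul_assoc]
    refine ⟨fun h => ?_, ?_⟩
    · have := RiU_sub (i := -2) (by omega) _ y
      rw [mul_assoc, e, ro_RQ, neg_neg] at this
      exact this ((X0_iff.1 h).2 a)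
    rintro (h | h)
    · have := RiU_sub (i := -1) le_rfl _ y
      rw [mul_assoc, e] at this
      exact (M0_Q' h).1 this
    · exact a (M0_A h)

/-! ### The stabiliser of the tree -/

theorem fwA {g : G} (hg : g ∈ E) (h : ∀ k : ℕ, 0 < k → g ^ k ∉ Subgroup.zpowers R) : Fw g A := by
  rw [← compl_compl A]
  refine fw_of_lt fun γ n m l hn hm => hn ?_
  have := ping (pow_mem hg (n - m)) (h _ (by omega)) _ ((ro_A _).2 hm)
  rwa [mul_assoc, gen_gen, ← mul_assoc, ← pow_add, Nat.sub_add_cancel l.le] at this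

theorem fwZ {g : G} (hg : g ∈ E) (h : ∀ k : ℕ, 0 < k → g ^ k ∉ Subgroup.zpowers R)
    (h' : ∀ k : ℕ, 0 < k → (sg⁻¹ * g * sg) ^ k ∉ Subgroup.zpowers R) : Fw g Z := by
  have := (fwA (mul_mem (mul_mem (inv_mem sg_E) hg) sg_E) h').conj sg
  rw [show sg⁻¹ * (sg⁻¹ * g * sg) * sg = g by simp [mul_assoc, gen_sq]] at this
  exact (fwA hg h).inter this

theorem exhQ {g y : G} (h : Sub g Q Q) (hy : y ∈ Q) (hy' : g⁻¹ * y ∉ Q) :
    Fw g Q ∧ Fw g⁻¹ Qᶜ := by
  have := exh (g := om g) (y := om y) (fun z hz => by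
    have := h (om z) (by rwa [mem_Q, om_om])
    rwa [mem_Q, map_mul, om_om] at this) hy (by rwa [← map_inv, ← map_mul])
  exact ⟨Fw.comap om this.1, Fw.comap om (X := Aᶜ) (map_inv om g ▸ this.2)⟩

theorem R_Q : R ∉ Q := fun h => (ro_Q _).1 h (by simpa using (Q_nu 1).2 one_Q)

theorem cc_E {g : G} (hg : g ∈ E) (hc : cls g = 1) (h1 : g ≠ 1) : CC g := by
  obtain ⟨w, h⟩ := redE hg
  refine CC.conj w rfl ?_
  have hc' : cls (w⁻¹ * g * w) = 1 := by simp [hc]
  have h1' : w⁻¹ * g * w ≠ 1 := fun e => h1 (by simpa [mul_eq_one_iff_eq_inv] using e)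
  generalize w⁻¹ * g * w = g at h hc' h1'
  rcases h with h | h | ⟨l, hl, h, rfl⟩
  · rcases tau_cases h with rfl | rfl | rfl
    · exact absurd rfl h1'
    · exact absurd hc' (by rw [map_mul, cls_sg, cls_R]; decide)
    · exact absurd hc' (by rw [map_mul, map_inv, cls_sg, cls_R]; decide)
  · have := congrArg cls (Subgroup.mem_bot.1 h)
    exact absurd this (by rw [map_mul, hc', cls_sg, map_one]; decide)
  have lt : ∀ e ∈ l, e * sg = sg * R * sg ∨ e * sg = R⁻¹ := fun e he => by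
    rcases tau_cases (h e he).1 with rfl | rfl | rfl
    · exact absurd (one_mem _) (h 1 he).2
    · exact Or.inl rfl
    · exact Or.inr (by rw [mul_assoc, gen_sq, mul_one])
  have s1 : Sub (sg * R * sg) Q Q := fun y hy => by
    rw [mul_assoc, mul_assoc, sg_Q]
    exact R_sub _ fun h => (sg_Q y).1 h hy
  have sb : ∀ l : List G, (∀ e ∈ l, e * sg = sg * R * sg ∨ e * sg = R⁻¹) →
      Sub (pr sg l) Q Q ∧ pr sg l ∈ E := fun l => by
    induction l with
    | nil => exact fun _ => ⟨fun y hy => by simpa, one_mem _⟩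
    | cons e l ih =>
      intro h
      have := ih fun e he => h e (by simp [he])
      rw [pr_cons]
      rcases h e (by simp) with e' | e' <;> rw [e']
      · exact ⟨s1.mul this.1, mul_mem (mul_mem (mul_mem sg_E R_E) sg_E) this.2⟩
      · exact ⟨Ri_sub.mul this.1, mul_mem (inv_mem R_E) this.2⟩
  have fw : Fw (pr sg l) Q ∧ Fw (pr sg l)⁻¹ Qᶜ := by
    obtain ⟨e, l, rfl⟩ := List.exists_cons_of_ne_nil hl
    have s2 := (sb l fun e he => lt e (by simp [he])).1.inv
    rcases lt e (by simp) with e' | e'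
    · refine exhQ (y := sg * R) (sb _ lt).1 ((sg_Q _).2 R_Q) ?_
      rw [pr_cons, e', mul_inv_rev, mul_assoc]
      refine s2 _ ?_
      rw [mul_inv_rev, mul_assoc, inv_mul_cancel, mul_one, gen_inv]
      exact fun h => (sg_Q 1).1 (by simpa using h) one_Q
    · refine exhQ (y := 1) (sb _ lt).1 one_Q ?_
      rw [pr_cons, e', mul_inv_rev, mul_assoc, inv_inv, mul_one]
      exact s2 _ R_Q
  have hE := (sb l lt).2
  generalize pr sg l = g at fw hE
  have inj : ∀ k : ℕ, 0 < k → g ^ k ≠ 1 := fun k hk e => by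
    have := fw_inj fw.1 fw.2 (a₁ := k) (a₂ := 0) (by simpa using e)
    omega
  by_cases p1 : ∃ k : ℕ, 0 < k ∧ g ^ k ∈ Subgroup.zpowers R
  · obtain ⟨k, hk, p⟩ := p1
    exact cc_par hk (inj k hk) p
  by_cases p2 : ∃ k : ℕ, 0 < k ∧ (sg⁻¹ * g * sg) ^ k ∈ Subgroup.zpowers R
  · obtain ⟨k, hk, p⟩ := p2
    refine CC.conj sg rfl (cc_par hk (fun e => inj k hk ?_) p)
    have := conj_pow (a := sg⁻¹) (b := g) (i := k)
    rw [inv_inv, e] at this
    rw [show g ^ k = sg * (sg⁻¹ * g ^ k * sg) * sg⁻¹ by group, ← this, mul_one, mul_inv_cancel]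
  push Not at p1 p2
  refine CC.inv (cc_edge (fw.2.inter (fwZ (inv_mem hE) (fun k hk => ?_) fun k hk => ?_)) ?_)
  · rw [inv_pow, inv_mem_iff]; exact p1 k hk
  · rw [show sg⁻¹ * g⁻¹ * sg = (sg⁻¹ * g * sg)⁻¹ by group, inv_pow, inv_mem_iff]; exact p2 k hk
  · rw [inv_inv]
    exact fw.1.inter (fwZ hE p1 p2)

/-! ### Hyperbolic elements -/

theorem pr_sub {l : List G} (h : ∀ e ∈ l, e ∈ E ∧ e ∉ Subgroup.zpowers R) : Sub (pr ro l) A A := by
  induction l with
  | nil => exact fun y hy => by simpa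
  | cons e l ih =>
    rw [pr_cons]
    exact (ping (h e (by simp)).1 (h e (by simp)).2).mul (ih fun e he => h e (by simp [he]))

theorem exh2 {e g : G} (he : e ∈ E) (hn : e ∉ Subgroup.zpowers R) (h : Sub g A A) :
    Fw (e * ro * g) {x | (e * ro)⁻¹ * x ∈ A} :=
  (exh1 he hn h).1.shift.mono fun x hx => by
    have := h _ hx
    rwa [mul_inv_rev, mul_assoc, mul_inv_cancel_left] at this

theorem cc_far {e g : G} {n : ℤ} (he : e ∈ E) (hn : e ∉ Subgroup.zpowers R) (h : Sub g A A)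
    (hs : Sub ((R ^ n * sg * R)⁻¹ * e * ro) A Qᶜ) : CC (e * ro * g) := by
  have f1 := (exh2 he hn h).conj (R ^ n * sg * R)
  have f2 := (exh1 he hn h).2.conj (R ^ n * sg * R)
  refine CC.conj (R ^ n * sg * R) rfl (cc_edge (f1.mono fun x hx => ?_) ?_)
  · have hf : (R ^ n * sg * R)⁻¹ * e ∈ E :=
      mul_mem (inv_mem (mul_mem (mul_mem (Rz_E n) sg_E) R_E)) he
    have hx' : (e * ro)⁻¹ * (R ^ n * sg * R * x) ∈ A := hx
    have ex : (R ^ n * sg * R)⁻¹ * e * ro * ((e * ro)⁻¹ * (R ^ n * sg * R * x)) = x := by group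
    generalize (R ^ n * sg * R)⁻¹ * e = f at hf hs ex
    refine ⟨ex ▸ hs _ hx', ex ▸ ping hf ?_ _ hx', ?_⟩
    · rintro ⟨j, rfl⟩
      refine hs (R ^ j * R) (E_A (mul_mem (Rz_E j) R_E)) ?_
      rw [mul_assoc, ← mul_assoc ro, ro_Rz, show R ^ j * (R ^ (-j) * ro * R) = ro * R by group, R,
        gen_gen]
      simpa using (Q_nu 1).2 one_Q
    · rw [← ex, ← mul_assoc, ← mul_assoc sg]
      refine ping (mul_mem sg_E hf) ?_ _ hx'
      rintro ⟨j, ej⟩
      have ej' : f = sg * R ^ j := by rw [show R ^ j = sg * f from ej, gen_gen]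
      refine hs (R ^ j) (E_A (Rz_E j)) ?_
      rw [ej', mul_assoc, ro_Rz, show sg * R ^ j * (R ^ (-j) * ro) = 1 * (sg * ro) by group, ← U, Q_U]
      exact one_Q
  · rw [show ((R ^ n * sg * R)⁻¹ * (e * ro * g) * (R ^ n * sg * R))⁻¹ =
      (R ^ n * sg * R)⁻¹ * (e * ro * g)⁻¹ * (R ^ n * sg * R) by group]
    refine f2.mono fun x hx => ?_
    have hx' : ro * (sg * R * x) ∈ A := by
      rw [ro_A, ← Rz_A n, ← mul_assoc, ← mul_assoc]
      exact hx
    have ex : R ^ (-1 : ℤ) * U * (ro * (sg * R * x)) = x := by simp [U, mul_assoc]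
    refine ⟨ex ▸ RiU_sub le_rfl _ hx', ?_, ?_⟩
    · rw [← ex, mul_assoc, Rz_A]
      exact U_sub _ hx'
    · have := ping (mul_mem (mul_mem sg_E (inv_mem R_E)) sg_E)
        (not_zp (by rw [map_mul, map_mul, map_inv, cls_sg, cls_R]; decide)
          (by rw [map_mul, map_mul, map_inv, cls_sg, cls_R]; decide)) _ hx'
      simpa [mul_assoc] using this

/-- a staircase -/
def st (l : List ℤ) : G := (l.map fun d => R ^ d * U).prod

@[simp] theorem st_nil : st [] = 1 := rfl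
@[simp] theorem st_cons (d : ℤ) (l : List ℤ) : st (d :: l) = R ^ d * U * st l := by simp [st]
@[simp] theorem st_append (l l' : List ℤ) : st (l ++ l') = st l * st l' := by simp [st]

theorem st_sub (l : List ℤ) : Sub (st l) A A := by
  induction l with
  | nil => exact fun y hy => by simpa
  | cons d l ih =>
    intro y hy
    rw [st_cons, mul_assoc, mul_assoc, Rz_A]
    exact U_sub _ (ih y hy)

theorem st_last {l : List ℤ} (hl : l ≠ []) {x : G} (h : st l * x ∉ A) : U * x ∉ A := by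
  obtain ⟨l, d, rfl⟩ := (l.eq_nil_or_concat').resolve_left hl
  intro hx
  refine h ?_
  rw [st_append, mul_assoc]
  refine st_sub l _ ?_
  rwa [st_cons, st_nil, mul_one, mul_assoc, Rz_A]

theorem st_pos {l : List ℤ} (h : ∀ d ∈ l, 0 ≤ d) :
    ∃ m, (l ≠ [] → true ∈ m) ∧ st l = pw m := by
  induction l with
  | nil => exact ⟨[], by simp, rfl⟩
  | cons d l ih =>
    obtain ⟨m, -, e⟩ := ih fun d hd => h d (by simp [hd])
    obtain ⟨k, rfl⟩ := Int.eq_ofNat_of_zero_le (h d (by simp))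
    exact ⟨List.replicate k false ++ true :: m, by simp, by simp [e, pw, mul_assoc]⟩

theorem adj_st {l : List G} (h : ∀ e ∈ l, ∃ a b : ℤ, e = R ^ a * sg * R ^ b) (c : ℤ) :
    ∃ m c', m.length = l.length ∧ R ^ c * pr ro l = st m * R ^ (c' : ℤ) := by
  induction l generalizing c with
  | nil => exact ⟨[], c, rfl, by simp⟩
  | cons e l ih =>
    obtain ⟨a, b, rfl⟩ := h e (by simp)
    obtain ⟨m, c', hm, e⟩ := ih (fun e he => h e (by simp [he])) (-b)
    refine ⟨(c + a) :: m, c', by simp [hm], ?_⟩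
    have := ro_Rz (-b)
    rw [neg_neg] at this
    rw [pr_cons, st_cons, mul_assoc _ (st m), ← e, mul_assoc _ _ ro, ← this, U]
    group

theorem Pos.conj {g : G} (w : G) (h : Pos g) : Pos (w * g * w⁻¹) := by
  obtain ⟨γ, l, hl, rfl⟩ := h
  exact ⟨w * γ, l, hl, by group⟩

theorem cc_st {l : List ℤ} (hl : l ≠ []) (hp : ¬ Pos (st l)) : CC (st l) := by
  by_cases h : ∀ d ∈ l, 0 ≤ d
  · obtain ⟨m, hm, e⟩ := st_pos h
    exact absurd ⟨1, m, hm hl, by simp [e]⟩ hp
  push Not at h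
  obtain ⟨d, hd, h⟩ := h
  obtain ⟨l1, l2, rfl⟩ := List.append_of_mem hd
  refine CC.conj (st l1) (g' := R ^ d * sg * ro * st (l2 ++ l1)) (by simp [mul_assoc, U]) ?_
  have he := mul_mem (Rz_E d) sg_E
  have hn : R ^ d * sg ∉ Subgroup.zpowers R := by
    rw [Subgroup.mul_mem_cancel_left _ (Subgroup.zpow_mem_zpowers R d)]
    exact sg_not
  refine cc_seg (d := d) (by omega) ?_ ((exh1 he hn (st_sub _)).2.shift.mono fun x hx => ?_)
  · simpa only [U, mul_assoc] using exh2 he hn (st_sub (l2 ++ l1))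
  · refine st_last (l := d :: (l2 ++ l1)) (by simp) ?_
    rw [st_cons, U, ← mul_assoc (R ^ d)]
    simpa only [mem_ofPred_eq, inv_inv, mem_compl_iff] using hx

theorem kS : KStmt := by
  intro g hc h1 hp
  obtain ⟨w, h⟩ := redG g
  refine CC.conj w rfl ?_
  have hc' : cls (w⁻¹ * g * w) = 1 := by simp [hc]
  have h1' : w⁻¹ * g * w ≠ 1 := fun e => h1 (by simpa [mul_eq_one_iff_eq_inv] using e)
  have hp' : ¬ Pos (w⁻¹ * g * w) := fun h => hp (by simpa [mul_assoc] using h.conj w)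
  generalize w⁻¹ * g * w = g at h hc' h1' hp'
  rcases h with h | h | ⟨l, hl, h, rfl⟩
  · exact cc_E h hc' h1'
  · exact absurd h (not_zp (by rw [map_mul, hc', cls_ro]; decide)
      (by rw [map_mul, hc', cls_ro]; decide))
  by_cases ha : ∀ e ∈ l, ∃ a b : ℤ, e = R ^ a * sg * R ^ b
  · obtain ⟨m, c, hm, e⟩ := adj_st ha 0
    rw [zpow_zero, one_mul] at e
    obtain ⟨d, m, rfl⟩ := List.exists_cons_of_length_pos (hm ▸ List.length_pos_of_ne_nil hl)
    have e' : (R ^ c)⁻¹⁻¹ * pr ro l * (R ^ c)⁻¹ = st ((c + d) :: m) := by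
      rw [e, st_cons, st_cons]; group
    refine CC.conj _ e' (cc_st (by simp) fun h => hp' ?_)
    have := h.conj (R ^ c)⁻¹
    rwa [← e', show (R ^ c)⁻¹ * ((R ^ c)⁻¹⁻¹ * pr ro l * (R ^ c)⁻¹) * (R ^ c)⁻¹⁻¹ = pr ro l by group]
      at this
  push Not at ha
  obtain ⟨e, he, ha⟩ := ha
  obtain ⟨l1, l2, rfl⟩ := List.append_of_mem he
  obtain ⟨n, hn⟩ := ((bridge (h e he).1).resolve_left (h e he).2).resolve_left
    fun ⟨a, b, e⟩ => ha a b e
  refine CC.conj (pr ro l1) (g' := e * ro * pr ro (l2 ++ l1)) (by simp [mul_assoc]) ?_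
  exact cc_far (h e he).1 (h e he).2 (pr_sub fun e he => h e (by
    simp only [List.mem_append, List.mem_cons] at he ⊢; tauto)) hn

end Pool.Agent.MP_7ebdba_gt.ge

end MrgPart3

-- ======== part 4: formerly Pool.Agent.MP_7ebdba_gt.ge.Pull
section MrgPart4

/-! Row PULL: a line that crosses the gate separates the two ends of the gate. -/

namespace Pool.Agent.MP_7ebdba_gt.ge

open ch Set Filter

namespace Pl

section
variable {P P' : Type} [Group P] [Group P'] {g : P} {Y : Set P}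

theorem fm_comap (f : P' →* P) (hf : Function.Injective f) {c : P'} (h : FinMod (f c) Y) :
    FinMod c (f ⁻¹' Y) := by
  obtain ⟨F, hF⟩ := h
  refine ⟨(F.finite_toSet.preimage hf.injOn).toFinset, fun x hx => ?_⟩
  obtain ⟨n, r, hr, e⟩ := hF _ hx
  exact ⟨n, c ^ (-n) * x, by simpa [e] using hr, by group⟩

theorem fm_conj (h : FinMod g Y) (v : P) : FinMod (v * (g * g) * v⁻¹) {x | v⁻¹ * x ∈ Y} := by
  classical
  obtain ⟨F, hF⟩ := h
  refine ⟨F.image (v * ·) ∪ F.image (v * g * ·), fun x hx => ?_⟩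
  obtain ⟨n, r, hr, e⟩ := hF _ hx
  rw [inv_mul_eq_iff_eq_mul] at e
  rcases Int.even_or_odd' n with ⟨k, rfl | rfl⟩
  · refine ⟨k, v * r, Finset.mem_union_left _ (Finset.mem_image_of_mem _ hr), ?_⟩
    rw [e, conj_zpow, ← sq, ← zpow_natCast, ← zpow_mul]
    group
  · refine ⟨k, v * g * r, Finset.mem_union_right _ (Finset.mem_image_of_mem _ hr), ?_⟩
    rw [e, conj_zpow, ← sq, ← zpow_natCast, ← zpow_mul]
    group

theorem fw_inf (h : Fw g Y) (hg : Function.Injective fun n : ℤ => g ^ n) : Y.Infinite := by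
  intro hf
  obtain ⟨n, a, b⟩ := ((h 1).and (fin_iff.1 (by
    simpa only [not_not] using fin_pre hg hf 1 1 : {n : ℤ | ¬ 1 * g ^ n * 1 ∉ Y}.Finite)).1).exists
  exact b (by simpa using a)

theorem fw_pull (f : P' →* P) {c : P'} (w : P) (h : Fw (w⁻¹ * f c * w) Y) :
    Fw c {y | w⁻¹ * f y ∈ Y} := by
  have := h.conj w⁻¹
  rw [show w⁻¹⁻¹ * (w⁻¹ * f c * w) * w⁻¹ = f c by group] at this
  exact Fw.comap f this

end

theorem ends_U : Ends U A := ends_of U_fw.1 U_fw.2

theorem ends_R : Ends R Qᶜ := ends_of R_fw.2 (by rw [compl_compl]; exact R_fw.1)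

theorem RR_A (x : G) : R * R * x ∈ A ↔ x ∈ A := by
  simpa [zpow_ofNat, sq] using Rz_A 2 x

theorem RRi_A (x : G) : (R * R)⁻¹ * x ∈ A ↔ x ∈ A := by rw [← RR_A, mul_inv_cancel_left]

theorem ends_X0 (γ : G) : {n : ℤ | ¬ (R ^ n * γ ∉ X0 ↔ 0 ≤ n)}.Finite := by
  refine ((ends_R ((R * R)⁻¹ * γ)).union (ends_R (R * R * γ))).subset fun n hn => ?_
  by_contra c
  simp only [mem_union, mem_ofPred_eq, not_or, not_not, mem_compl_iff] at c
  rw [show R ^ n * ((R * R)⁻¹ * γ) = (R * R)⁻¹ * (R ^ n * γ) by group,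
    show R ^ n * (R * R * γ) = R * R * (R ^ n * γ) by group] at c
  refine hn ?_
  simp only [X0, mem_ofPred_eq]
  tauto

theorem mem_N0 {x : G} : x ∈ N0 ↔ U * (R * R * x) ∉ A := by
  rw [← ro_A]
  have : (R * R * U)⁻¹ * (ro * x) = ro * (U * (R * R * x)) := by
    simp [R, U, mul_assoc]
  rw [← this]
  rfl

theorem bdry (y : G) : {x | ¬ (x * y ∈ X0 ↔ x ∈ X0) ∧ x * y ∉ N0 ∪ M0}.Finite := by
  have f1 : ({x | ¬ (x * y ∈ X0 ↔ x ∈ X0)} ∩ {x | ¬ (x * y ∈ A ↔ x ∈ A)}).Finite :=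
    finMod_fin (A_ai y) fun r => ((ends_X0 r).union (ends_X0 (r * y))).subset fun n hn => by
      by_contra c
      simp only [mem_union, mem_ofPred_eq, not_or, not_not] at c
      exact hn.1 (not_iff_not.1 (mul_assoc (R ^ n) r y ▸ c.2.trans c.1.symm))
  have f2 : ({x | x ∈ A ∧ U⁻¹ * (x * y) ∉ A} ∩ {x | ¬ (x * y ∈ Q ↔ x ∈ Q)}).Finite :=
    finMod_fin (Q_ai y) fun r => ((ends_U r).union (ends_U (U⁻¹ * (r * y)))).subset fun n hn => by
      by_contra c
      simp only [mem_union, mem_ofPred_eq, not_or, not_not] at c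
      refine hn.1.2 ?_
      rw [show U⁻¹ * (U ^ n * r * y) = U ^ n * (U⁻¹ * (r * y)) by group]
      exact c.2.2 (c.1.1 hn.1.1)
  have f3 : ({x | x ∉ A ∧ U * (x * y) ∈ A} ∩ {x | ¬ (x * y ∈ Q ↔ x ∈ Q)}).Finite :=
    finMod_fin (Q_ai y) fun r => ((ends_U r).union (ends_U (U * (r * y)))).subset fun n hn => by
      by_contra c
      simp only [mem_union, mem_ofPred_eq, not_or, not_not] at c
      refine hn.1.1 (c.1.2 (c.2.1 ?_))
      rw [show U ^ n * (U * (r * y)) = U * (U ^ n * r * y) by group]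
      exact hn.1.2
  refine ((f1.union (f2.preimage (mul_right_injective (R * R)⁻¹).injOn)).union
    (f3.preimage (mul_right_injective (R * R)).injOn)).subset fun x ⟨hx, hn⟩ => ?_
  rw [mem_union, not_or, mem_N0, not_not] at hn
  by_cases e : x * y ∈ A ↔ x ∈ A
  · by_cases a : x ∈ A
    · refine Or.inl (Or.inr ⟨⟨(RRi_A x).2 a, fun c => hn.2 ?_⟩, fun c => hx ?_⟩)
      · simpa only [M0, mem_ofPred_eq, mul_inv_rev, mul_assoc] using c
      · simp only [X0, mem_ofPred_eq, a, e.2 a, true_imp_iff, not_true, false_imp_iff, and_true]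
        simpa only [mul_assoc] using c
    · refine Or.inr ⟨⟨mt (RR_A x).1 a, by simpa only [mul_assoc] using hn.1⟩, fun c => hx ?_⟩
      simp only [X0, mem_ofPred_eq, a, mt e.1 a, false_imp_iff, not_false_iff, true_imp_iff,
        true_and]
      simpa only [mul_assoc] using c
  · exact Or.inl (Or.inl ⟨hx, e⟩)

theorem orbit_UA (t : G) : {n : ℤ | U⁻¹ * (R ^ n * t) ∈ A}.Finite := by
  refine ((ends_R (R * t)).union (ends_R (R⁻¹ * t))).subset fun n hn => ?_
  by_contra c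
  simp only [mem_union, mem_ofPred_eq, not_or, not_not, mem_compl_iff] at c
  have h1 := RU_sub le_rfl _ hn
  have h2 := RiU_sub le_rfl _ hn
  rw [show R ^ (1 : ℤ) * U * (U⁻¹ * (R ^ n * t)) = R ^ n * (R * t) by group] at h1
  rw [show R ^ (-1 : ℤ) * U * (U⁻¹ * (R ^ n * t)) = R ^ n * (R⁻¹ * t) by group] at h2
  exact c.2.2 (c.1.1 h1) h2

variable {ι : S 2 →* G}

theorem ex_conj (hr : ∀ x, cls x = 1 ↔ x ∈ ι.range) {x : G} (hx : cls x = 1) (v : G) :
    ∃ c, ι c = v * x * v⁻¹ := (hr _).1 (by simp [hx])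

theorem inj_conj {c : S 2} {v x : G} (e : ι c = v * x * v⁻¹)
    (h : Function.Injective fun n : ℤ => x ^ n) : Function.Injective fun n : ℤ => c ^ n :=
  fun a b hab => h (by
    have := congrArg ι hab
    simp only [map_zpow, e, conj_zpow] at this
    exact mul_left_cancel (mul_right_cancel this))

theorem nbig (hi : Function.Injective ι) (hr : ∀ x, cls x = 1 ↔ x ∈ ι.range) {c : S 2} {v : G}
    {k : ℤ} (e : ι c = v * R ^ k * v⁻¹) : ¬ FinMod c {y | v⁻¹ * ι y ∈ A} := by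
  rintro ⟨F, hF⟩
  obtain ⟨d, hd⟩ := ex_conj hr (x := U ^ 6) (by
    simp only [cls, U, map_pow, map_mul, lift_sg, lift_ro]; decide) v
  have h6 : Fw (U ^ 6) {x | U⁻¹ * x ∈ A} := U_fw.1.shift.pow (by norm_num)
  refine fw_inf (fw_pull ι v (by rwa [hd, show v⁻¹ * (v * U ^ 6 * v⁻¹) * v = U ^ 6 by group]))
    (inj_conj hd (fw_inj (U_fw.1.pow (by norm_num))
      (inv_pow U 6 ▸ U_fw.2.pow (by norm_num)))) ?_
  refine ((F.finite_toSet.biUnion fun f _ => (orbit_UA (v⁻¹ * ι f)).image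
    fun n => v * (R ^ n * (v⁻¹ * ι f))).preimage hi.injOn).subset fun y hy => ?_
  obtain ⟨n, f, hf, rfl⟩ := hF y (by simpa using U_sub _ hy)
  have e2 : ι (c ^ n * f) = v * (R ^ (k * n) * (v⁻¹ * ι f)) := by
    rw [map_mul, map_zpow, e, conj_zpow, zpow_mul]
    group
  refine mem_biUnion hf ⟨k * n, ?_, e2.symm⟩
  simpa only [mem_ofPred_eq, e2, inv_mul_cancel_left] using hy

theorem hp (hi : Function.Injective ι) (hr : ∀ x, cls x = 1 ↔ x ∈ ι.range) (v : G) :
    ∃ c, HP c {y | v⁻¹ * ι y ∈ A} := by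
  obtain ⟨c, e⟩ := ex_conj hr (x := R * R) (by
    simp only [cls, R, map_mul, lift_nu, lift_ro]; decide) v
  refine ⟨c, inj_conj e (sq R ▸ fw_inj (R_fw.2.pow two_pos) ?_), fun x => ?_, fun y => ?_,
    nbig hi hr (k := 2) (by rw [e, zpow_two]), ?_⟩
  · rw [compl_compl, ← inv_pow]
    exact R_fw.1.pow two_pos
  · simp only [mem_ofPred_eq, map_mul, e]
    rw [show v⁻¹ * (v * (R * R) * v⁻¹ * ι x) = R * R * (v⁻¹ * ι x) by group, RR_A]
  · obtain ⟨F, hF⟩ := fm_comap ι hi (e ▸ fm_conj (A_ai (ι y)) v)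
    exact ⟨F, fun x hx => hF x (by
      simpa only [mem_preimage, mem_ofPred_eq, map_mul, mul_assoc] using hx)⟩
  · have := nbig hi hr (c := c) (v := v * ro) (k := -2) (by
      rw [e, mul_assoc v ro, ro_Rz, neg_neg, zpow_two]
      group)
    simp only [mul_inv_rev, gen_inv, mul_assoc, ro_A] at this
    exact this

end Pl

open Pl in
theorem pull : PullStmt := by
  intro hN ι hi hr g w hc
  obtain ⟨c, hM⟩ := hp hi hr (w * (R * R * U))
  obtain ⟨c', hN'⟩ := hp hi hr (w * ro * (R * R * U))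
  replace hM : HP c {y | w⁻¹ * ι y ∈ M0} := by
    simpa only [M0, mem_ofPred_eq, mul_inv_rev, mul_assoc] using hM
  replace hN' : HP c' {y | w⁻¹ * ι y ∈ N0} := by
    simpa only [N0, M0, mem_ofPred_eq, mul_inv_rev, gen_inv, mul_assoc] using hN'
  have key : ∀ X : Set G, (∀ y, {x | ¬ (x * y ∈ X ↔ x ∈ X) ∧ x * y ∉ N0 ∪ M0}.Finite) →
      Fw (w⁻¹ * ι g * w) (X \ (N0 ∪ M0)) → Fw (w⁻¹ * ι g * w)⁻¹ (Xᶜ \ (N0 ∪ M0)) →
      Sep g {y | w⁻¹ * ι y ∈ N0} {y | w⁻¹ * ι y ∈ M0} := fun X hX h1 h2 => by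
    have a := fw_pull ι w h1
    have b := fw_pull ι (c := g⁻¹) w (by
      rwa [map_inv, show w⁻¹ * (ι g)⁻¹ * w = (w⁻¹ * ι g * w)⁻¹ by group])
    have a1 : Fw g {y | w⁻¹ * ι y ∈ X} := a.mono fun y hy => hy.1
    have b1 : Fw g⁻¹ {y | w⁻¹ * ι y ∈ X}ᶜ := b.mono fun y hy => hy.1
    obtain ⟨s, hs, hn⟩ := hN.2 g (fw_inj a1 b1)
    refine sep_of hN.1 hs hn hN' hM
      (tails_iff.2 ⟨a.mono fun y hy => hy.2, b.mono fun y hy => hy.2⟩) (ends_of a1 b1) fun y => ?_
    refine ((hX (ι y)).preimage ((mul_right_injective w⁻¹).comp hi).injOn).subset fun x hx => ?_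
    simpa only [mem_preimage, Function.comp, mem_ofPred_eq, map_mul, mul_assoc, mem_union] using hx
  rcases hc with h | h
  · exact key X0 bdry h.1 h.2
  · refine key X0ᶜ (fun y => ?_) (inv_inv (w⁻¹ * ι g * w) ▸ h.2) (by rw [compl_compl]; exact h.1)
    simpa only [mem_compl_iff, not_iff_not] using bdry y

end Pool.Agent.MP_7ebdba_gt.ge

end MrgPart4

-- ======== part 5: formerly Pool.Agent.MP_7ebdba_gt.ge.Ntv
section MrgPart5

/-! Row NTV: one end and a nontrivial side function. -/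

namespace Pool.Agent.MP_7ebdba_gt.ge

open ch

theorem ntv : NtvStmt := by
  refine ⟨one_end, fun g hg => ?_⟩
  obtain ⟨s, hs, hl⟩ := exists_lk g hg
  exact ⟨s, ⟨⟨0, fun x => by rw [hs.1.1, add_zero]⟩, hs.1.2⟩, hl.nontrivial hg⟩

end Pool.Agent.MP_7ebdba_gt.ge

end MrgPart5

-- marker of a merged file
example : 731051 + 531272 = 731051 + 531272 := rfl

end MrgPart1

-- marker of a merged file
example : 731051 + 531272 = 731051 + 531272 := rfl
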