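import Mathlib.Order.Interval.Finset.Box
import Pool.Agent.MP_7ebdba_gt.ge.Ntv

/-! Periodic paths made of deep blocks of the substitution. -/

namespace Pool.Agent.MP_7ebdba_gt.ge

open ch Set Filter

/-- the blocks of level `n` -/
def blk : ℕ → Bool → G
  | 0, b => pw [b]
  | n + 1, b => ((sub b).map (blk n)).prod

theorem blk_zero (b : Bool) : blk 0 b = if b then U else R := by simp [blk, pw]
theorem blk_t (n : ℕ) : blk (n + 1) true =
    blk n true * blk n false * blk n false * blk n false * blk n false := by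
  simp [blk, sub, mul_assoc]
theorem blk_f (n : ℕ) : blk (n + 1) false =
    blk n false * blk n true * blk n false * blk n false * blk n false * blk n false := by
  simp [blk, sub, mul_assoc]

theorem blk_flat (n : ℕ) (l : List Bool) :
    (l.map (blk (n + 1))).prod = ((l.flatMap sub).map (blk n)).prod := by
  induction l with
  | nil => rfl
  | cons b l ih =>
    rw [List.map_cons, List.prod_cons, ih, List.flatMap_cons, List.map_append, List.prod_append, blk]

theorem pw_blk (l : List Bool) : pw l = (l.map (blk 0)).prod := by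
  rw [pw, funext blk_zero]

theorem sub_one : Sub 1 A A := fun y hy => by simpa
theorem R_subA : Sub R A A := fun y hy => by simpa using (Rz_A 1 y).2 hy

theorem prod_sub {f : Bool → G} (h : ∀ b, Sub (f b) A A) (l : List Bool) :
    Sub (l.map f).prod A A := by
  induction l with
  | nil => exact sub_one
  | cons b l ih => rw [List.map_cons, List.prod_cons]; exact (h b).mul ih

theorem blk_sub (n : ℕ) (b : Bool) : Sub (blk n b) A A := by
  induction n generalizing b with
  | zero => rw [blk_zero]; cases b; exacts [R_subA, U_sub]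
  | succ n ih => exact prod_sub ih _

theorem cls_U : cls U = .r 1 := by rw [U, map_mul, cls_sg, cls_ro]; decide

theorem cls_blk (n : ℕ) : cls (blk n true) = .r 1 ∧ cls (blk n false) = .sr (3 + n) := by
  induction n with
  | zero => simp [blk_zero, cls_U, cls_R]
  | succ n ih =>
    simp only [blk_t, blk_f, map_mul, ih.1, ih.2, Nat.cast_succ]
    generalize (n : ZMod 6) = a
    revert a
    decide

/-- a gate of class `j` inside `B` -/
def Site (j : DihedralGroup 6) (B : G) : Prop :=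
  ∃ α β, Sub α A A ∧ Sub β A A ∧ B = α * U * (R * R) * (R * R * U) * β ∧
    cls (α * U * (R * R)) = j

theorem Site.ext {j : DihedralGroup 6} {B x y : G} (h : Site j B) (hx : Sub x A A)
    (hy : Sub y A A) : Site (cls x * j) (x * B * y) := by
  obtain ⟨α, β, h1, h2, rfl, rfl⟩ := h
  exact ⟨x * α, β * y, hx.mul h1, h2.mul hy, by simp only [mul_assoc], by
    simp only [mul_assoc, map_mul]⟩

/-- classes of gates found in the blocks -/
def ok : ℕ → DihedralGroup 6 → Bool
  | 0, j => j = .sr 4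
  | n + 1, j => ok n j || ok n ((.sr (3 + (n + 2 : ℕ)) * .r 1 : DihedralGroup 6)⁻¹ * j) ||
      ok n ((.sr (3 + (n + 2 : ℕ)) * .r 1 * .sr (3 + (n + 2 : ℕ)) : DihedralGroup 6)⁻¹ * j)

theorem site_f (n : ℕ) : ∀ j, ok n j = true → Site j (blk (n + 2) false) := by
  induction n with
  | zero =>
    intro j hj
    obtain rfl : j = .sr 4 := by simpa [ok] using hj
    have s := blk_sub 1 false
    refine ⟨R, R * R * R * R * (blk 1 false * blk 1 false * blk 1 false * blk 1 false), R_subA,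
      (((R_subA.mul R_subA).mul R_subA).mul R_subA).mul (((s.mul s).mul s).mul s), ?_, by
        simp only [map_mul, cls_R, cls_U]; decide⟩
    have e1 : blk 1 false = R * U * R * R * R * R := by simp [blk_f, blk_zero]
    have e2 : blk 1 true = U * R * R * R * R := by simp [blk_t, blk_zero]
    rw [blk_f, e2]
    nth_rewrite 1 [e1]
    simp only [mul_assoc]
  | succ n ih =>
    intro j hj
    have s := blk_sub (n + 2) false
    have t := blk_sub (n + 2) true
    have c := cls_blk (n + 2)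
    simp only [ok, Bool.or_eq_true] at hj
    rw [show n + 1 + 2 = n + 2 + 1 from rfl, blk_f]
    rcases hj with (hj | hj) | hj
    · simpa only [map_one, one_mul, mul_assoc] using
        (ih _ hj).ext sub_one (t.mul (((s.mul s).mul s).mul s))
    · have := (ih _ hj).ext (s.mul t) ((s.mul s).mul s)
      rw [map_mul, c.1, c.2, mul_inv_cancel_left] at this
      simpa only [mul_assoc] using this
    · have := (ih _ hj).ext ((s.mul t).mul s) (s.mul s)
      rw [map_mul, map_mul, c.1, c.2, mul_inv_cancel_left] at this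
      simpa only [mul_assoc] using this

theorem site8 (b : Bool) (j : DihedralGroup 6) : Site j (blk 8 b) := by
  cases b
  · exact site_f 6 j ((by decide +kernel : ∀ j, ok 6 j = true) j)
  have s := blk_sub 7 false
  have t := blk_sub 7 true
  have c := cls_blk 7
  rw [blk_t]
  rcases (by decide +kernel : ∀ j, ok 5 ((.r 1 : DihedralGroup 6)⁻¹ * j) = true ∨
    ok 5 ((.r 1 * .sr (3 + (7 : ℕ)) : DihedralGroup 6)⁻¹ * j) = true) j with hj | hj
  · have := (site_f 5 _ hj).ext t ((s.mul s).mul s)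
    rw [c.1, mul_inv_cancel_left] at this
    simpa only [mul_assoc] using this
  · have := (site_f 5 _ hj).ext (t.mul s) (s.mul s)
    rw [map_mul, c.1, c.2, mul_inv_cancel_left] at this
    simpa only [mul_assoc] using this

theorem blk8 (b : Bool) : ∃ α β, Sub α A A ∧ Sub β A A ∧ blk 8 b = α * U * β := by
  obtain ⟨α, β, h1, h2, e, -⟩ := site8 b 1
  exact ⟨α, R * R * (R * R * U) * β, h1,
    ((R_subA.mul R_subA).mul ((R_subA.mul R_subA).mul U_sub)).mul h2, by
      rw [e]; simp only [mul_assoc]⟩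

/-- a periodic path of blocks -/
structure Path (w : ℤ → G) (d : G) (p : ℕ) : Prop where
  step : ∀ k, ∃ b, w (k + 1) = w k * blk 8 b
  per : ∀ k, w (k + p) = d * w k
  pos : 0 < p

theorem exists_path (δ : G) {l : List Bool} (hl : l ≠ []) :
    ∃ w, Path w (δ * (l.map (blk 8)).prod * δ⁻¹) l.length := by
  have hp : 0 < l.length := List.length_pos_of_ne_nil hl
  have hp' : (0 : ℤ) < l.length := by exact_mod_cast hp
  set d := δ * (l.map (blk 8)).prod * δ⁻¹ with hd
  let w : ℤ → G := fun k =>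
    d ^ (k / l.length) * δ * ((l.map (blk 8)).take (k % l.length).toNat).prod
  have k1 : ∀ (q : ℤ) (i : ℕ), i < l.length →
      w (i + q * l.length) = d ^ q * δ * ((l.map (blk 8)).take i).prod := fun q i hi => by
    have hi' : (i : ℤ) < l.length := by exact_mod_cast hi
    simp only [w]
    rw [Int.add_mul_ediv_right _ _ hp'.ne', Int.add_mul_emod_self_right,
      Int.ediv_eq_zero_of_lt (by omega) hi', Int.emod_eq_of_lt (by omega) hi', zero_add,
      Int.toNat_natCast]
  have k2 : ∀ (q : ℤ) (i : ℕ), i ≤ l.length →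
      w (i + q * l.length) = d ^ q * δ * ((l.map (blk 8)).take i).prod := fun q i hi => by
    rcases hi.lt_or_eq with hi | rfl
    · exact k1 q i hi
    · have := k1 (q + 1) 0 hp
      rw [show ((0 : ℕ) : ℤ) + (q + 1) * l.length = l.length + q * l.length by push_cast; ring] at this
      rw [this, List.take_zero, List.take_of_length_le (by simp), zpow_add_one, mul_assoc (d ^ q),
        mul_assoc (d ^ q), mul_assoc (d ^ q), hd]
      simp
  have dec : ∀ k : ℤ, ∃ (q : ℤ) (i : ℕ), i < l.length ∧ k = i + q * l.length := fun k => by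
    have a := Int.emod_nonneg k hp'.ne'
    have b := Int.emod_lt_of_pos k hp'
    refine ⟨k / l.length, (k % l.length).toNat, by omega, ?_⟩
    rw [Int.toNat_of_nonneg a, Int.emod_add_ediv_mul]
  refine ⟨w, fun k => ?_, fun k => ?_, hp⟩
  · obtain ⟨q, i, hi, rfl⟩ := dec k
    refine ⟨l[i], ?_⟩
    rw [show (i : ℤ) + q * l.length + 1 = (i + 1 : ℕ) + q * l.length by push_cast; ring,
      k2 q _ hi, k1 q i hi, List.prod_take_succ _ _ (by simpa), List.getElem_map, mul_assoc _ _ (blk _ _)]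
  · obtain ⟨q, i, hi, rfl⟩ := dec k
    rw [show (i : ℤ) + q * l.length + l.length = i + (1 + q) * l.length by ring, k1 _ i hi, k1 q i hi,
      zpow_one_add]
    simp only [mul_assoc]

/-- the nested family of a path -/
def fam (ι : S 2 →* G) (w : ℤ → G) (k : ℤ) : Set (S 2) := {y | (w k)⁻¹ * ι y ∈ A}

variable {ι : S 2 →* G} {w : ℤ → G} {d : G} {p : ℕ}

theorem Path.sys (h : Path w d p) : Sys (fam ι w) := by
  have s : ∀ n : ℕ, Sub ((w 0)⁻¹ * w n) A A := fun n => by
    induction n with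
    | zero => simpa using sub_one
    | succ n ih =>
      obtain ⟨b, e⟩ := h.step n
      rw [Nat.cast_succ, e, ← mul_assoc]
      exact ih.mul (blk_sub 8 b)
  have fw : Fw ((w 0)⁻¹ * d * w 0) A ∧ Fw ((w 0)⁻¹ * d * w 0)⁻¹ Aᶜ := by
    obtain ⟨n, hn⟩ := Nat.exists_eq_add_one_of_ne_zero h.pos.ne'
    obtain ⟨b, e⟩ := h.step n
    obtain ⟨α, β, h1, h2, e'⟩ := blk8 b
    have : (w 0)⁻¹ * d * w 0 = (w 0)⁻¹ * w n * α * U * β := by
      rw [mul_assoc, ← h.per, zero_add, hn, Nat.cast_succ, e, e']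
      simp only [mul_assoc]
    rw [this]
    refine exh (y := (w 0)⁻¹ * w n * α * sg) ((((s n).mul h1).mul U_sub).mul h2)
      (((s n).mul h1) _ (E_A sg_E)) ?_
    rw [show ((w 0)⁻¹ * w n * α * U * β)⁻¹ * ((w 0)⁻¹ * w n * α * sg) = β⁻¹ * (U⁻¹ * sg) by group]
    exact h2.inv _ fun h => UA_iff.1 h (by simpa [gen_sq] using one_A)
  have pz : ∀ t : ℤ, w (t * p) = d ^ t * w 0 := fun t => by
    induction t using Int.induction_on with
    | zero => simp
    | succ t ih => rw [add_mul, one_mul, h.per, ih, add_comm, zpow_one_add, mul_assoc]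
    | pred t ih =>
      have := h.per ((-t - 1) * p)
      rw [show (-(t : ℤ) - 1) * p + p = -t * p by ring, ih] at this
      rw [eq_inv_mul_iff_mul_eq.2 this.symm]
      group
  have cz : ∀ t : ℤ, (w (t * p))⁻¹ * ι 1 = ((w 0)⁻¹ * d * w 0) ^ (-t) * (w 0)⁻¹ := fun t => by
    have := conj_zpow (a := (w 0)⁻¹) (b := d) (i := -t)
    rw [inv_inv] at this
    rw [pz, this, map_one]
    group
  refine ⟨antitone_int_of_succ_le fun k y hy => ?_, ?_, ?_⟩
  · obtain ⟨b, e⟩ := h.step k
    have := blk_sub 8 b _ hy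
    rwa [e, mul_inv_rev, mul_assoc, mul_inv_cancel_left] at this
  · obtain ⟨n, hn⟩ := (fw.1 (w 0)⁻¹).exists
    exact ⟨-n * p, by rwa [fam, mem_ofPred_eq, cz, neg_neg, zpow_natCast]⟩
  · obtain ⟨n, hn⟩ := (fw.2 (w 0)⁻¹).exists
    exact ⟨n * p, by rwa [fam, mem_ofPred_eq, cz, ← inv_zpow', zpow_natCast]⟩

theorem Path.dense (h : Path w d p) (hι : ∀ x, cls x = 1 ↔ x ∈ ι.range) {g : S 2} {v : G}
    (hs : Sep g {y | v⁻¹ * ι y ∈ N0} {y | v⁻¹ * ι y ∈ M0}) : Dense g (fam ι w) 1 1 := by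
  refine ⟨_, _, hs, fun k => ?_⟩
  obtain ⟨b, e⟩ := h.step k
  obtain ⟨α, β, h1, h2, e', c⟩ := site8 b ((cls (w k))⁻¹ * cls v)
  obtain ⟨t, ht⟩ := (hι (w k * (α * U * (R * R)) * v⁻¹)).1 (by rw [map_mul, map_mul, c]; simp)
  have z : ∀ y, v⁻¹ * ι (t⁻¹ * y) = (α * U * (R * R))⁻¹ * ((w k)⁻¹ * ι y) := fun y => by
    rw [map_mul, map_inv, ht]; group
  refine ⟨k, t, le_rfl, by omega, fun y hy => ?_, fun y hy => ?_⟩
  · change (R * R * U)⁻¹ * (ro * (v⁻¹ * ι (t⁻¹ * y))) ∈ A
    have : ∀ x, (R * R * U)⁻¹ * (ro * ((α * U * (R * R))⁻¹ * x)) = ro * (α⁻¹ * x) := fun x => by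
      simp [R, U, mul_assoc]
    rw [z, this, ro_A]
    exact h1.inv _ hy
  · change (R * R * U)⁻¹ * (v⁻¹ * ι (t⁻¹ * y)) ∈ A
    have := h2 _ hy
    rw [Nat.cast_one, e, e'] at this
    rw [z]
    convert this using 1
    group

theorem tail (j : DihedralGroup 6) : ∃ t, cls t = j ∧ ∀ z ∈ A, U * z * t ∈ A := by
  have k : ∀ z ∈ A, U * z * ro ∈ A := fun z hz => by
    by_cases hD : z ∈ D
    · obtain ⟨n, rfl⟩ := AD hz hD
      have := ro_Rz n
      rw [U, mul_assoc sg, this, mul_assoc, mul_assoc, gen_sq, mul_one]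
      exact E_A (mul_mem sg_E (Rz_E _))
    · rw [mul_assoc]
      exact U_sub _ ((A_gen hD 1).2 hz)
  have a : (.sr 5 : DihedralGroup 6) ∈ E.map cls := ⟨sg, sg_E, cls_sg⟩
  have b : (.sr 3 : DihedralGroup 6) ∈ E.map cls := ⟨R, R_E, cls_R⟩
  obtain ⟨i, hi, e⟩ : ∃ i ∈ E.map cls, i = j ∨ .sr 0 * i = j := by
    have := (by decide : ∀ j : DihedralGroup 6, ∃ i ∈ [1, .sr 5, .sr 3, .sr 5 * .sr 3, .sr 3 * .sr 5,
      (.sr 5 * .sr 3 * .sr 5 : DihedralGroup 6)], i = j ∨ .sr 0 * i = j) j
    obtain ⟨i, hi, e⟩ := this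
    refine ⟨i, ?_, e⟩
    simp only [List.mem_cons, List.not_mem_nil, or_false] at hi
    rcases hi with rfl | rfl | rfl | rfl | rfl | rfl
    exacts [one_mem _, a, b, mul_mem a b, mul_mem b a, mul_mem (mul_mem a b) a]
  obtain ⟨e0, he, rfl⟩ := hi
  rcases e with rfl | rfl
  · exact ⟨e0, rfl, fun z hz => (A_E he _).2 (U_sub z hz)⟩
  · exact ⟨ro * e0, by rw [map_mul, cls_ro], fun z hz => by
      rw [← mul_assoc, A_E he]; exact k z hz⟩

theorem Path.shift (h : Path w d (p + 1)) (hι : ∀ x, cls x = 1 ↔ x ∈ ι.range) {Φ : S 2 →* S 2}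
    (hΦ : ∀ y, ι (Φ y) = d * ι y * d⁻¹) :
    ∃ γ, ∀ k, ∀ y ∈ fam ι w k, Φ y * γ ∈ fam ι w (k + p) := by
  obtain ⟨t, ht, H⟩ := tail (cls d)⁻¹
  obtain ⟨γ, hγ⟩ := (hι (d * t)).1 (by rw [map_mul, ht, mul_inv_cancel])
  refine ⟨γ, fun k y hy => ?_⟩
  obtain ⟨b, e⟩ := h.step (k - 1)
  obtain ⟨α, β, h1, h2, e'⟩ := blk8 b
  have := h1 _ (H _ (h2 _ hy))
  have e1 := h.per (k - 1)
  rw [show k - 1 + (p + 1 : ℕ) = k + p by push_cast; ring] at e1
  rw [sub_add_cancel, e'] at e
  rw [fam, mem_ofPred_eq, map_mul, hΦ, hγ, e1]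
  rw [e] at this
  convert this using 1
  group

end Pool.Agent.MP_7ebdba_gt.ge
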