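import Pool.Agent.MP_7ebdba_gt.ss.Core

/-! The dictionary between the surface group and the orbifold group. -/

namespace Pool.Agent.MP_7ebdba_gt.ge.W

open Pool.Agent.MP_7ebdba_gt.SS (ev evc map_ev cert ev_of_cert cj ev_cj num num_lt hom hom_of)

/-- the element given by a word in the three involutions -/
def evG (w : List (Fin 3)) : G := (w.map gen).prod

theorem evG_cons (c : Fin 3) (w : List (Fin 3)) : evG (c :: w) = gen c * evG w := by simp [evG]

theorem evG_append (u v : List (Fin 3)) : evG (u ++ v) = evG u * evG v := by simp [evG]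

theorem evG_reverse (w : List (Fin 3)) : evG w.reverse = (evG w)⁻¹ := by
  induction w with
  | nil => simp [evG]
  | cons c w ih => rw [List.reverse_cons, evG_append, ih, evG_cons c w]; simp [evG]

theorem five (a b c : Fin 3) (h1 : a ≠ b) (h2 : c ≠ b) (h3 : c ≠ a) :
    gen a * gen b * gen c * gen a * gen b = gen c * gen b * gen a * gen c := by
  have rot : ∀ a b c : G, (a * b * c) ^ 3 = 1 → (b * c * a) ^ 3 = 1 := fun a b c h => by
    have : (b * c * a) ^ 3 = a⁻¹ * (a * b * c) ^ 3 * a := by simp only [pow_succ]; group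
    rw [this, h]
    simp
  have c0 : (gen 0 * gen 1 * gen 2) ^ 3 = 1 := gen_cube
  have d0 : (gen 2 * gen 1 * gen 0) ^ 3 = 1 := by
    have := congrArg (·⁻¹) c0
    simpa [← inv_pow, mul_assoc] using this
  have key : (gen a * gen b * gen c) ^ 3 = 1 := by
    fin_cases a <;> fin_cases b <;> fin_cases c <;> first
      | exact absurd rfl h1
      | exact absurd rfl h2
      | exact absurd rfl h3
      | exact c0
      | exact rot _ _ _ c0
      | exact rot _ _ _ (rot _ _ _ c0)
      | exact d0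
      | exact rot _ _ _ d0
      | exact rot _ _ _ (rot _ _ _ d0)
  have e : gen c * gen b * gen a * gen c = (gen c * gen a * gen b * gen c)⁻¹ := by
    simp [mul_assoc]
  rw [e, eq_inv_iff_mul_eq_one, ← key]
  simp only [pow_succ, pow_zero, one_mul, mul_assoc]

/-- the algorithm of Dehn with a stack -/
def dehn : ℕ → List (Fin 3) → List (Fin 3) → Bool
  | 0, _, _ => false
  | _ + 1, st, [] => st.isEmpty
  | f + 1, [], c :: w => dehn f [c] w
  | f + 1, d :: st, c :: w =>
    if d = c then dehn f st w else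
      match st with
      | e :: g :: h :: r =>
        if h = d ∧ g = c ∧ e ≠ c ∧ e ≠ d then dehn f r (e :: g :: h :: e :: w)
        else dehn f (c :: d :: e :: g :: h :: r) w
      | st => dehn f (c :: d :: st) w

theorem dehn_spec (f : ℕ) (st w : List (Fin 3)) (h : dehn f st w = true) :
    (evG st)⁻¹ * evG w = 1 := by
  fun_induction dehn f st w with
  | case1 => cases h
  | case2 => rw [List.isEmpty_iff.1 h]; simp [evG]
  | case3 f c w ih => simpa [evG] using ih h
  | case4 f st c w ih => simpa [evG_cons, mul_assoc] using ih h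
  | case5 f d c w hd e g k r hc ih =>
    obtain ⟨rfl, rfl, h1, h2⟩ := hc
    have := five k g e hd h1 h2
    rw [← ih h]
    have e2 := congrArg (fun x => (evG r)⁻¹ * (x * evG w)) this
    simpa only [evG_cons, mul_inv_rev, gen_inv, mul_assoc] using e2
  | case6 f d c w hd e g k r hc ih => simpa [evG_cons, mul_assoc] using ih h
  | case7 f d c w hd st _ ih => simpa [evG_cons, mul_assoc] using ih h

theorem eqG {u v : List (Fin 3)} (h : dehn 5000 [] (u ++ v.reverse) = true) : evG u = evG v := by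
  have := dehn_spec _ _ _ h
  rwa [evG_append, evG_reverse, show evG [] = 1 from rfl, inv_one, one_mul, mul_inv_eq_one] at this

theorem map_evG (f : G →* G) (t : Fin 3 → List (Fin 3)) (h : ∀ i, f (gen i) = evG (t i))
    (w : List (Fin 3)) : f (evG w) = evG (w.flatMap t) := by
  induction w with
  | nil => simp [evG]
  | cons c w ih => rw [evG_cons, map_mul, h, ih, List.flatMap_cons, evG_append]

/-- the images of a1, b1, a2, b2 -/
def io (k : ℕ) : List (Fin 3) :=
  ([[0, 1, 0, 1, 0, 1, 2], [1, 0, 2, 0, 1, 2], [1, 0, 1, 2, 1, 0, 1, 1, 2, 1],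
    [0, 1, 0, 1, 0, 1, 1, 2, 1]] : List (List (Fin 3))).getD k []

def ex (w : List ℕ) : List (Fin 3) :=
  w.flatMap fun c => if c % 2 = 0 then io (c / 2) else (io (c / 2)).reverse

def iotaF : F 2 →* G := FreeGroup.lift fun x => evG (io (num x))

theorem iotaF_of (x : Fin 2 × Bool) : iotaF (FreeGroup.of x) = evG (io (num x)) := by simp [iotaF]

theorem iotaF_gen (k : ℕ) : iotaF (SS.gen 2 k) = evG (io k) := by
  unfold SS.gen
  split_ifs with h
  · rw [iotaF_of]
    congr 2
    unfold num
    rcases Nat.mod_two_eq_zero_or_one k with h2 | h2 <;> simp [h2] <;> omega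
  · rw [map_one, io, List.getD_eq_default _ _ (by simp; omega)]
    rfl

theorem iotaF_ev (w : List ℕ) : iotaF (ev (SS.gen 2) w) = evG (ex w) := by
  induction w with
  | nil => exact map_one _
  | cons c w ih =>
    rw [ev, map_mul, ih, ex, ex, List.flatMap_cons, evG_append]
    congr 1
    unfold evc
    split_ifs
    · exact iotaF_gen _
    · rw [map_inv, iotaF_gen, evG_reverse]

def z0 : List ℕ := [0, 2, 1, 3, 4, 6, 5, 7]
def z0i : List ℕ := [6, 4, 7, 5, 2, 0, 3, 1]

theorem ev_z0 : ev (SS.gen 2) z0 = rel 2 := by decide +kernel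

/-- the embedding of the surface group -/
def iota : S 2 →* G :=
  desc iotaF (by rw [← ev_z0, iotaF_ev]; exact eqG (v := []) (by decide +kernel))

theorem iota_ev (w : List ℕ) : iota (mk 2 (ev (SS.gen 2) w)) = evG (ex w) := iotaF_ev w

theorem conj_of (t : List (List ℕ)) (θ : F 2 →* F 2)
    (hθ : ∀ x, θ (FreeGroup.of x) = ev (SS.gen 2) (t.getD (num x) [])) (f : G →* G)
    (ft : Fin 3 → List (Fin 3)) (hf : ∀ i, f (gen i) = evG (ft i)) (w : List (Fin 3))
    (h : ∀ k < 4, dehn 5000 [] (ex (t.getD k []) ++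
      (w ++ (io k).flatMap ft ++ w.reverse).reverse) = true) (y : F 2) :
    iota (mk 2 (θ y)) = evG w * f (iota (mk 2 y)) * (evG w)⁻¹ := by
  have e : iotaF.comp θ = (MulAut.conj (evG w)).toMonoidHom.comp (f.comp iotaF) := by
    refine FreeGroup.ext_hom _ _ fun x => ?_
    have := eqG (h _ (num_lt x))
    rw [evG_append, evG_append, evG_reverse, ← map_evG f ft hf, ← iotaF_ev, ← hθ,
      ← iotaF_of] at this
    exact this
  exact DFunLike.congr_fun e y

theorem iota_Phi (y : S 2) : iota (Phi y) = U * iota y * U⁻¹ := by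
  obtain ⟨y, rfl⟩ := mk_surjective 2 y
  have := conj_of [[0, 2, 1], [2, 1], [4, 7], [6, 4, 7]] phiH (by decide +kernel)
    (MonoidHom.id _) (fun i => [i]) (fun i => by simp [evG]) [0, 1] (by decide +kernel) y
  rw [show evG [0, 1] = U by simp [evG, U]] at this
  exact this

/-- the twist `U ↦ U`, `R ↦ R U` -/
def t2 : G →* G :=
  lift (evG [1]) (evG [1, 0, 1]) (evG [1, 0, 2, 0, 1])
    (by rw [← evG_append]; exact eqG (v := []) (by decide +kernel))
    (by rw [← evG_append]; exact eqG (v := []) (by decide +kernel))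
    (by rw [← evG_append]; exact eqG (v := []) (by decide +kernel))
    (by
      simp only [pow_succ, pow_zero, one_mul, ← evG_append]
      exact eqG (v := []) (by decide +kernel))

/-- the twist `U ↦ R U R`, `R ↦ R` -/
def th : G →* G :=
  lift (evG [1, 2, 0, 2, 1]) (evG [1]) (evG [2])
    (by rw [← evG_append]; exact eqG (v := []) (by decide +kernel))
    (by rw [← evG_append]; exact eqG (v := []) (by decide +kernel))
    (by rw [← evG_append]; exact eqG (v := []) (by decide +kernel))
    (by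
      simp only [pow_succ, pow_zero, one_mul, ← evG_append]
      exact eqG (v := []) (by decide +kernel))

theorem t2_gen (i : Fin 3) : t2 (gen i) = evG (![[1], [1, 0, 1], [1, 0, 2, 0, 1]] i) := by
  fin_cases i
  exacts [lift_sg, lift_ro, lift_nu]

theorem th_gen (i : Fin 3) : th (gen i) = evG (![[1, 2, 0, 2, 1], [1], [2]] i) := by
  fin_cases i
  exacts [lift_sg, lift_ro, lift_nu]

theorem t2_U : t2 U = U := by simp [U, t2_gen, evG]
theorem t2_R : t2 R = R * U := by simp [U, R, t2_gen, evG, mul_assoc]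
theorem th_U : th U = R * U * R := by simp [U, R, th_gen, evG, mul_assoc, gen_sq]
theorem th_R : th R = R := by simp [R, th_gen, evG]

theorem iota_Tinf (y : S 2) : iota ((Tinf⁻¹ : MulAut (S 2)) y) = t2 (iota y) := by
  obtain ⟨y, rfl⟩ := mk_surjective 2 y
  have := conj_of [[0, 3], [2, 0, 3], [4], [6]] tinfI (by decide +kernel) t2 _ t2_gen []
    (by decide +kernel) y
  rw [show evG [] = 1 from rfl, one_mul, inv_one, mul_one] at this
  exact this

/-- the conjugating element for the multitwist -/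
def wT : G := evG [0, 1, 0, 1, 0, 1, 2, 1, 2, 0, 2, 1, 2, 0, 2, 1, 2, 0, 2, 1]

theorem iota_Tau (y : S 2) : iota (Tau y) = wT * th (iota y) * wT⁻¹ := by
  obtain ⟨y, rfl⟩ := mk_surjective 2 y
  exact conj_of [[0, 7, 0, 5, 2, 6, 5, 2, 1, 6, 1],
    [0, 7, 0, 3, 4, 7, 3, 4, 1, 6, 2, 1, 6, 5, 2, 5, 2, 6, 5, 2, 1, 6, 1],
    [0, 7, 0, 3, 4, 7, 3, 4, 1, 6, 2, 1, 6, 5, 2, 6, 5, 2, 1, 6, 1], [0, 5, 2, 6, 5, 2, 1, 6, 1]]
    tauH (by decide +kernel) th _ th_gen _ (by decide +kernel) y

abbrev D6 : Type := DihedralGroup 6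

def cl (i : Fin 3) : D6 := ![.sr 5, .sr 0, .r 3] i

theorem cls_gen (i : Fin 3) : cls (gen i) = cl i := by
  fin_cases i
  exacts [lift_sg, lift_ro, lift_nu]

def idx : D6 → ℕ
  | .r i => i.val
  | .sr i => 6 + i.val

/-- the Schreier table -/
def KT (i : Fin 3) (d : D6) : List ℕ :=
  ([[2, 0, 3, 1], [], [], [], [], [], [], [], [], [], [], [0, 2, 1, 3], [], [], [], [], [], [], [],
    [], [], [], [], [], [2, 0, 3], [2, 0, 3, 3], [2, 0, 3, 1, 3], [2, 1, 3], [2, 2, 1, 3],
    [2, 0, 2, 1, 3], [4, 6, 5], [4, 6, 5, 5], [4, 6, 5, 7, 5], [4, 7, 5], [4, 4, 7, 5],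
    [4, 6, 4, 7, 5]] : List (List ℕ)).getD (12 * i.val + idx d) []

/-- the transversal -/
def tr : D6 → List (Fin 3)
  | .r i => (List.replicate i.val [0, 1]).flatten
  | .sr i => 1 :: (List.replicate i.val [0, 1]).flatten

theorem tr_step (i : Fin 3) (d : D6) :
    gen i * evG (tr d) = evG (tr (cl i * d)) * iota (mk 2 (ev (SS.gen 2) (KT i d))) := by
  rw [iota_ev, ← evG_cons, ← evG_append]
  refine eqG ?_
  rcases d with k | k <;> revert i k <;> decide +kernel

theorem iota_range (x : G) : cls x = 1 ↔ x ∈ iota.range := by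
  constructor
  · have : ∀ x : G, ∃ y, x⁻¹ = evG (tr (cls x⁻¹)) * iota y := by
      refine ind_right 1 ⟨1, by simp; rfl⟩ ?_
      rintro x i ⟨y, h⟩
      refine ⟨mk 2 (ev (SS.gen 2) (KT i (cls x⁻¹))) * y, ?_⟩
      rw [mul_inv_rev, gen_inv, map_mul, cls_gen, map_mul, ← mul_assoc, ← tr_step, mul_assoc, ← h]
    intro h
    obtain ⟨y, e⟩ := this x⁻¹
    rw [inv_inv, h] at e
    exact ⟨y, by rw [e]; exact (one_mul _).symm⟩
  · rintro ⟨y, rfl⟩
    have hc : ∀ w, cls (evG w) = (w.map cl).prod := fun w => by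
      rw [evG, map_list_prod, List.map_map]
      exact congrArg (fun f => (w.map f).prod) (funext cls_gen)
    have : cls.comp iota = 1 := Pool.Agent.MP_7ebdba_gt.hom_ext fun x => by
      change cls (iotaF (FreeGroup.of x)) = 1
      rw [iotaF_of, hc]
      revert x
      decide +kernel
    exact DFunLike.congr_fun this y

def stepF (i : Fin 3) (p : D6 × S 2) : D6 × S 2 :=
  (cl i * p.1, mk 2 (ev (SS.gen 2) (KT i p.1)) * p.2)

def rwr : List (Fin 3) → D6 → D6 × List ℕ
  | [], d => (d, [])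
  | i :: w, d => (cl i * (rwr w d).1, KT i (rwr w d).1 ++ (rwr w d).2)

theorem rwr_spec (w : List (Fin 3)) (d : D6) (x : S 2) :
    w.foldr stepF (d, x) = ((rwr w d).1, mk 2 (ev (SS.gen 2) (rwr w d).2) * x) := by
  induction w with
  | nil => simp [rwr, ev]
  | cons i w ih => simp [ih, rwr, stepF, SS.ev_append, mul_assoc]

noncomputable def chk (w : List (Fin 3)) (d : D6) (v : List ℕ) : Prop :=
  (rwr w d).1 = d ∧ ∃ l ∈ [[], [(1, 0, 0)], [(3, 0, 0)], [(0, 0, 4)], [(0, 1, 0)]],
    cert [z0, z0i] (cj (rwr w d).2 [] v) l = true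

noncomputable instance (w : List (Fin 3)) (d : D6) (v : List ℕ) : Decidable (chk w d v) := by
  unfold chk
  infer_instance

theorem of_chk {w : List (Fin 3)} {d : D6} {v : List ℕ} (h : chk w d v) (x : S 2) :
    w.foldr stepF (d, x) = (d, mk 2 (ev (SS.gen 2) v) * x) := by
  obtain ⟨h1, l, -, hl⟩ := h
  have hR : ∀ r ∈ [z0, z0i], ev (SS.gen 2) r = rel 2 ∨ ev (SS.gen 2) r = (rel 2)⁻¹ := by
    decide +kernel
  have := ev_cj _ _ _ _ (ev_of_cert (fun k => mk 2 (SS.gen 2 k)) _ (fun r hr => by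
    rw [← map_ev]
    rcases hR r hr with h | h <;> simp [h, mk_rel]) _ l hl)
  rw [← map_ev, ← map_ev, ← map_ev] at this
  rw [rwr_spec, h1, this]
  simp [ev]

theorem step_inv (i : Fin 3) : Function.Involutive (stepF i) := by
  rintro ⟨d, x⟩
  have : chk [i, i] d [] := by rcases d with k | k <;> revert i k <;> decide +kernel
  simpa [ev] using of_chk this x

theorem perm_sq (i : Fin 3) : (step_inv i).toPerm * (step_inv i).toPerm = 1 :=
  Equiv.ext (step_inv i)

/-- the action on the cosets of the surface group -/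
def Psi : G →* Equiv.Perm (D6 × S 2) :=
  lift (step_inv 0).toPerm (step_inv 1).toPerm (step_inv 2).toPerm (perm_sq 0) (perm_sq 1)
    (perm_sq 2) (by
      refine Equiv.ext ?_
      rintro ⟨d, x⟩
      have : chk [0, 1, 2, 0, 1, 2, 0, 1, 2] d [] := by
        rcases d with k | k <;> revert k <;> decide +kernel
      simpa [ev, pow_succ] using of_chk this x)

theorem Psi_evG (w : List (Fin 3)) (p : D6 × S 2) : Psi (evG w) p = w.foldr stepF p := by
  induction w with
  | nil => simp [evG]
  | cons i w ih =>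
    have : Psi (gen i) = (step_inv i).toPerm := by
      fin_cases i
      exacts [lift_sg, lift_ro, lift_nu]
    rw [evG_cons, map_mul, Equiv.Perm.mul_apply, ih, this]
    rfl

theorem iota_inj : Function.Injective iota := by
  have hi : ∀ y : S 2, (∀ x, Psi (iota y) (1, x) = (1, y * x)) →
      ∀ x, Psi (iota y⁻¹) (1, x) = (1, y⁻¹ * x) := fun y h x => by
    rw [map_inv, map_inv, Equiv.Perm.inv_eq_iff_eq, h, mul_inv_cancel_left]
  have key : ∀ w : F 2, ∀ x, Psi (iota (mk 2 w)) (1, x) = (1, mk 2 w * x) := by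
    intro w
    have h1 : ∀ a : Fin 2 × Bool, ∀ x,
        Psi (iota (mk 2 (FreeGroup.of a))) (1, x) = (1, mk 2 (FreeGroup.of a) * x) := by
      intro a x
      have : chk (io (num a)) 1 [2 * num a] := by revert a; decide +kernel
      have e := of_chk this x
      rw [← Psi_evG, ← iotaF_of] at e
      refine Eq.trans e ?_
      simp [ev, evc, SS.gen_num]
    induction w using FreeGroup.induction_on with
    | C1 => simp
    | of a => exact h1 a
    | inv_of a _ => rw [map_inv]; exact hi _ (h1 a)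
    | mul a b ha hb =>
      intro x
      rw [map_mul, map_mul, map_mul, Equiv.Perm.mul_apply, hb, ha, mul_assoc]
  refine (injective_iff_map_eq_one _).2 fun y hy => ?_
  obtain ⟨w, rfl⟩ := mk_surjective 2 y
  have := key w 1
  rw [hy, map_one, mul_one] at this
  exact (congrArg Prod.snd this).symm

theorem inv0 : Function.Involutive fun p : ℤ × ℤ × ℤ =>
    (p.1 - 2 * p.2.1 + p.2.2, p.2.2 - p.2.1, p.2.2) := fun p => by
  ext <;> simp
  ring
theorem inv1 : Function.Involutive fun p : ℤ × ℤ × ℤ => (p.1, -p.2.1, p.2.2) := fun p => by simp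
theorem inv2 : Function.Involutive fun p : ℤ × ℤ × ℤ => (p.2.2, -p.2.1, p.1) := fun p => by simp

/-- the action on binary quadratic monomials -/
def kap : G →* Equiv.Perm (ℤ × ℤ × ℤ) :=
  lift inv0.toPerm inv1.toPerm inv2.toPerm (Equiv.ext inv0) (Equiv.ext inv1) (Equiv.ext inv2)
    (Equiv.ext fun p => by ext <;> simp [pow_succ, Function.Involutive.coe_toPerm] <;> ring)

theorem kap_U (p : ℤ × ℤ × ℤ) : kap U p = (p.1 + 2 * p.2.1 + p.2.2, p.2.2 + p.2.1, p.2.2) := by
  simp [U, kap, Function.Involutive.coe_toPerm]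

theorem kap_R (p : ℤ × ℤ × ℤ) : kap R p = (p.2.2, p.2.1, p.1) := by
  simp [R, kap, Function.Involutive.coe_toPerm]

theorem kap_pw (l : List Bool) : 0 < (kap (pw l) (1, 1, 1)).1 ∧ 0 < (kap (pw l) (1, 1, 1)).2.2 ∧
    1 ≤ (kap (pw l) (1, 1, 1)).2.1 ∧ (true ∈ l → 1 < (kap (pw l) (1, 1, 1)).2.1) := by
  induction l with
  | nil => simp [pw]
  | cons b l ih =>
    have e : pw (b :: l) = (if b then U else R) * pw l := by simp [pw]
    rw [e, map_mul, Equiv.Perm.mul_apply]
    cases b
    · rw [if_neg (by simp), kap_R]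
      exact ⟨ih.2.1, ih.1, ih.2.2.1, fun h => ih.2.2.2 (by simpa using h)⟩
    · rw [if_pos rfl, kap_U]
      dsimp only
      omega

theorem kap_iota (y : S 2) (h : r0 y = 1) : kap (iota y) = 1 := by
  have e2 : ∀ x, kap (gen 1) * (kap (gen 2) * (kap (gen 1) * x)) = kap (gen 2) * x := fun x =>
    Equiv.ext fun p => by simp [kap, Function.Involutive.coe_toPerm]
  have e : kap.comp iota = (FreeGroup.lift ![kap (evG (io 0)), kap (evG (io 1))]).comp r0 := by
    refine Pool.Agent.MP_7ebdba_gt.hom_ext fun x => ?_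
    have h1 : r0 (mk 2 (FreeGroup.of x)) = FreeGroup.of (if x.2 then Fin.rev x.1 else x.1) :=
      FreeGroup.lift_apply_of
    rw [MonoidHom.comp_apply, MonoidHom.comp_apply, h1, FreeGroup.lift_apply_of]
    refine (congrArg kap (iotaF_of x)).trans ?_
    obtain ⟨i, b⟩ := x
    fin_cases i <;> cases b
    · rfl
    · rfl
    · change kap (evG [1, 0, 1, 2, 1, 0, 1, 1, 2, 1]) = kap (evG [1, 0, 2, 0, 1, 2])
      rw [← mul_one (kap _), ← mul_one (kap (evG [1, 0, 2, 0, 1, 2]))]
      simp only [evG_cons, map_mul, mul_assoc, e2]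
    · change kap (evG [0, 1, 0, 1, 0, 1, 1, 2, 1]) = kap (evG [0, 1, 0, 1, 0, 1, 2])
      simp only [evG_cons, map_mul, e2]
  have := DFunLike.congr_fun e y
  rwa [MonoidHom.comp_apply, MonoidHom.comp_apply, h, map_one] at this

theorem not_pos (y : S 2) (h : r0 y = 1) : ¬ Pos (iota y) := by
  rintro ⟨γ, l, hl, e⟩
  have h1 := kap_iota y h
  rw [e, map_mul, map_mul, map_inv, mul_inv_eq_one, mul_eq_left] at h1
  have := (kap_pw l).2.2.2 hl
  rw [h1] at this
  exact lt_irrefl _ this

end W

theorem words : WordsStmt := by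
  refine ⟨W.iota, Tau ^ 2 * Tinf⁻¹,
    (MulAut.conj (W.wT * W.th W.wT)).toMonoidHom.comp (W.th.comp (W.th.comp W.t2)),
    W.wT * W.th W.wT * R * R, W.iota_inj, W.iota_range, W.iota_Phi, W.not_pos,
    mul_mem (Subgroup.subset_closure (Or.inl (Or.inr rfl)))
      (inv_mem (Subgroup.subset_closure (Or.inl (Or.inl rfl)))), fun y => ?_, fun b => ?_⟩
  · rw [sq, MulAut.mul_apply, MulAut.mul_apply, W.iota_Tau, W.iota_Tau, W.iota_Tinf]
    simp [mul_assoc]
  · cases b <;> simp [pw, sub, W.t2_U, W.t2_R, W.th_U, W.th_R, mul_assoc]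

end Pool.Agent.MP_7ebdba_gt.ge
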