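import Mathlib
import Pool.Agent.MP_7ebdba_gt.ge.Deep
import Pool.Agent.MP_7ebdba_gt.ge.Ntv
import Pool.Agent.MP_7ebdba_gt.ge.Words
import Pool.Agent.MP_7ebdba_gt.ch.Main
import Pool.Agent.MP_7ebdba_gt.ss.Main

/-! Assembly of the geometric half, and of the main statement. -/

namespace Pool.Agent.MP_7ebdba_gt.ge

open ch Set

section Map
variable {P : Type} [Group P] (θ : P ≃* P) {g g' : P} {X : Set P} {s : P → ZMod 2}

theorem fm_map (h : ch.FinMod g X) : ch.FinMod (θ g) {x | θ.symm x ∈ X} := by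
  classical
  obtain ⟨R, hR⟩ := h
  refine ⟨R.image θ, fun x hx => ?_⟩
  obtain ⟨n, r, hr, e⟩ := hR _ hx
  exact ⟨n, θ r, Finset.mem_image_of_mem _ hr, by
    rw [← map_zpow, ← map_mul, ← e, θ.apply_symm_apply]⟩

theorem side_map (h : Side g s) : Side (θ g) fun x => s (θ.symm x) := by
  refine ⟨⟨fun x => by simp [h.1.1], fun y => by simpa using fm_map θ (h.1.2 (θ.symm y))⟩,
    fun s1 h1 => ?_⟩
  obtain ⟨c, e, H⟩ := h.2 (fun x => s1 (θ x)) ⟨h1.1.imp fun w hw x => by simp [hw], fun y => by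
    simpa using fm_map θ.symm (h1.2 (θ y))⟩
  exact ⟨c, e, by simpa using fm_map θ H⟩

theorem adj_map (h : Adj g g') : Adj (θ g) (θ g') := by
  obtain ⟨s, hs, h1, h2⟩ := h
  have k : ∀ x, x ∉ Subgroup.zpowers (θ g) → θ.symm x ∉ Subgroup.zpowers g := by
    rintro x hx ⟨n, e⟩
    exact hx ⟨n, by simpa using congrArg θ e⟩
  refine ⟨_, side_map θ hs, fun x hx => ?_, fun x hx hx' => ?_⟩
  · simpa using h1 _ (k x hx)
  · simpa using h2 _ (k x hx) (by simpa using k _ hx')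

end Map

theorem hom_pw {F : G →* G} {δ : G} {f : Bool → G} (h : ∀ b, F (pw [b]) = δ * f b * δ⁻¹)
    (l : List Bool) : F (pw l) = δ * (l.map f).prod * δ⁻¹ := by
  induction l with
  | nil => simp [pw]
  | cons b l ih =>
    have : pw (b :: l) = pw [b] * pw l := by simp [pw]
    rw [this, map_mul, h, ih, List.map_cons, List.prod_cons]
    group

theorem iter {ι : S 2 →* G} {φ : MulAut (S 2)} {F : G →* G} {δ : G} (h1 : ∀ y, ι (φ y) = F (ι y))
    (h2 : ∀ b, F (pw [b]) = δ * pw (sub b) * δ⁻¹) (n : ℕ) : ∃ (F' : G →* G) (δ' : G),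
      (∀ y, ι ((φ ^ n) y) = F' (ι y)) ∧ ∀ b, F' (pw [b]) = δ' * blk n b * δ'⁻¹ := by
  induction n with
  | zero => exact ⟨MonoidHom.id G, 1, fun y => rfl, fun b => by simp [blk]⟩
  | succ n ih =>
    obtain ⟨F', δ', a, b⟩ := ih
    refine ⟨F'.comp F, F' δ * δ', fun y => ?_, fun c => ?_⟩
    · rw [pow_succ, MulAut.mul_apply, a, h1, MonoidHom.comp_apply]
    · rw [MonoidHom.comp_apply, h2, map_mul, map_mul, hom_pw b, map_inv, blk]
      group

theorem flat_len {l : List Bool} (hl : true ∈ l) :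
    true ∈ l.flatMap sub ∧ 5 ≤ (l.flatMap sub).length := by
  obtain ⟨l1, l2, rfl⟩ := List.append_of_mem hl
  simp [sub]
  omega

theorem no_chain : ∃ θ ∈ slopeGrp, ¬ Chain (r0.comp (θ⁻¹ : MulAut (S 2)).toMonoidHom) := by
  obtain ⟨ι, φ, F, δ, inj, ran, hU, hr, hφ, h1, h2⟩ := words
  have dense : ∀ {g w d p}, g ≠ 1 → ¬ Pos (ι g) → Path w d p → Dense g (fam ι w) 1 1 :=
    fun {g w d p} hg hp h => by
      obtain ⟨v, hv⟩ := kS (ι g) ((ran _).2 ⟨g, rfl⟩) (fun e => hg (inj (by simpa using e))) hp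
      exact h.dense ran (pull ntv ι inj ran g v hv)
  have ne : ∀ (n : ℕ) {g}, g ≠ 1 → (φ ^ n) g ≠ 1 := fun n g hg => by simpa using hg
  have mono1 : ∀ {n g}, ¬ Pos (ι ((φ ^ (n + 1)) g)) → ¬ Pos (ι ((φ ^ n) g)) := by
    rintro n g h ⟨γ, l, hl, e⟩
    refine h ⟨F γ * δ, l.flatMap sub, (flat_len hl).1, ?_⟩
    rw [pow_succ', MulAut.mul_apply, h1, e, map_mul, map_mul, hom_pw (f := blk 1) (fun b => by
      rw [h2, blk, pw_blk]), blk_flat, ← pw_blk, map_inv]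
    group
  have mono : ∀ {n g} k, ¬ Pos (ι ((φ ^ (n + k)) g)) → ¬ Pos (ι ((φ ^ n) g)) := by
    intro n g k
    induction k with
    | zero => exact id
    | succ k ih => exact fun h => ih (mono1 h)
  have step : ∀ {n g g'}, Adj g g' → g ≠ 1 → ¬ Pos (ι ((φ ^ (n + 9)) g)) →
      ¬ Pos (ι ((φ ^ n) g')) := by
    rintro n g g' a hg h ⟨γ, l, hl, e⟩
    obtain ⟨F', δ', b1, b2⟩ := iter h1 h2 9
    have hl' := flat_len hl
    obtain ⟨w, hw⟩ := exists_path (F' γ * δ') (List.ne_nil_of_mem hl'.1)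
    refine depth hw.sys (adj_map (φ ^ (n + 9)) a) (dense (ne _ hg) h hw) (fun k y => ?_)
      (le_trans (by norm_num) hl'.2) one_pos
    have : ι ((φ ^ (n + 9)) g') =
        F' γ * δ' * ((l.flatMap sub).map (blk 8)).prod * (F' γ * δ')⁻¹ := by
      rw [add_comm, pow_add, MulAut.mul_apply, b1, e, map_mul, map_mul, hom_pw b2, blk_flat, map_inv]
      group
    rw [fam, fam, mem_ofPred_eq, mem_ofPred_eq, hw.per, map_mul, this, mul_inv_rev, mul_assoc,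
      inv_mul_cancel_left]
  refine ⟨(φ ^ 46)⁻¹, inv_mem (pow_mem hφ _), ?_⟩
  rintro ⟨g0, g1, g2, g3, x, n0, n1, n2, n3, nx, hx, a0, a1, a2, a3, ax⟩
  have px : ¬ Pos (ι ((φ ^ (37 + 9)) x)) := hr _ (by simpa using hx)
  have all : ¬ Pos (ι ((φ ^ 19) g0)) ∧ ¬ Pos (ι ((φ ^ 19) g1)) ∧ ¬ Pos (ι ((φ ^ 19) g2)) ∧
      ¬ Pos (ι ((φ ^ 19) g3)) := by
    rcases ax with ⟨b0, b1⟩ | ⟨b2, b3⟩
    · have p1 := step b1.1 nx px
      have p2 := step (n := 28) a1.1 n1 p1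
      exact ⟨mono 18 (step b0.1 nx px), mono 18 p1, mono 9 p2, step a2.1 n2 p2⟩
    · have p2 := step b2.1 nx px
      have p1 := step (n := 28) a1.2 n2 p2
      exact ⟨step a0.2 n1 p1, mono 9 p1, mono 18 p2, mono 18 (step b3.1 nx px)⟩
  obtain ⟨p0, p1, p2, p3⟩ := all
  obtain ⟨F', δ', b1, b2⟩ := iter h1 h2 10
  obtain ⟨w, hw⟩ := exists_path δ' (l := (sub true).flatMap sub) (by decide)
  let Φ : S 2 →* S 2 := (φ ^ 10 * Phi * (φ ^ 10)⁻¹ : MulAut (S 2)).toMonoidHom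
  have eΦ : ∀ y, Φ ((φ ^ 10) y) = (φ ^ 10) (Phi y) := fun y => by simp [Φ]
  have hd : F' U = δ' * (((sub true).flatMap sub).map (blk 8)).prod * δ'⁻¹ := by
    rw [← blk_flat, ← blk, ← b2]
    simp [pw]
  obtain ⟨γ, hγ⟩ := Path.shift (p := 28) hw ran (Φ := Φ) fun y => by
    obtain ⟨y, rfl⟩ := (φ ^ 10).surjective y
    rw [eΦ, b1, b1, hU, map_mul, map_mul, map_inv, hd]
  refine endgame hw.sys (adj_map (φ ^ 10) a0.1) (adj_map (φ ^ 10) a1.1) (adj_map (φ ^ 10) a2.1)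
    (Φ := Φ) (eΦ g0 ▸ ⟨adj_map (φ ^ 10) a3.1, adj_map (φ ^ 10) a3.2⟩)
    (dense (ne _ n0) (mono 9 p0) hw) (dense (ne _ n1) (mono 9 p1) hw)
    (dense (ne _ n2) (mono 9 p2) hw) (dense (ne _ n3) (mono 9 p3) hw)
    (eΦ g0 ▸ dense (ne _ (by simpa using n0)) (step a3.1 n3 p3) hw) hγ (by norm_num)

theorem partI : PartI := partI_of_no_chain no_chain

theorem main : MainStmt := main_of partI SS.partII

end Pool.Agent.MP_7ebdba_gt.ge
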